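import Pool.Agent.Run7.h712.TS.Box
import Pool.Agent.N54.ME.Three
import Pool.Agent.N666.TM.Thin

/-!
# Boxes, integral parts of generalised polynomials and metric families
-/

set_option autoImplicit false

namespace Pool.Agent.Run7.h712.TS

open Finset Filter MeasureTheory
open Pool.Agent.N666.TM (Well)

section
variable {ι : Type} [Fintype ι] [DecidableEq ι]

open Classical in
/-- All but the proportion `y ^ (-E)` of the points of any box with sides at least `N`, anywhere, have the property `P κ C N y`. -/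
def Boxes (P : ℝ → ℝ → ℕ → ℕ → (ι → ℤ) → Prop) (E : ℕ) : Prop :=
  ∃ κ C : ℝ, 0 < κ ∧ 0 < C ∧ ∃ y₀ : ℕ, 16 ≤ y₀ ∧ ∀ y N : ℕ, y₀ ≤ y → 2 ≤ N → ∀ (a : ι → ℤ) (L : ι → ℕ), (∀ i, N ≤ L i) →
    (((bx a L).filter fun c => ¬ P κ C N y c).card : ℝ) ≤ 1 / (y : ℝ) ^ E * (bx a L).card

open Classical in
/-- All but the proportion `y ^ (-E)` of the `x t`, for the integers `t ∈ (N, 2 N]` and for the primes `t ∈ (N, 2 N]`. -/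
def AlmostAll (P : ℝ → ℝ → ℕ → ℕ → (ι → ℤ) → Prop) (E : ℕ) (x : ℕ → ι → ℤ) : Prop :=
  ∃ κ C : ℝ, 0 < κ ∧ 0 < C ∧ ∃ y₀ : ℕ, 16 ≤ y₀ ∧ ∀ y N : ℕ, y₀ ≤ y → 2 ≤ N →
    (((Ioc N (2 * N)).filter fun t => ¬ P κ C N y (x t)).card : ℝ) ≤ 1 / (y : ℝ) ^ E * (Ioc N (2 * N)).card ∧
    ((((Ioc N (2 * N)).filter Nat.Prime).filter fun t => ¬ P κ C N y (x t)).card : ℝ) ≤
      1 / (y : ℝ) ^ E * ((Ioc N (2 * N)).filter Nat.Prime).card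

open Classical in
/-- **From well distributed families to the three kinds.** -/
theorem kinds [Nonempty ι] (P : ℝ → ℝ → ℕ → ℕ → (ι → ℤ) → Prop) (E : ℕ)
    (hmain : ∀ κ : ℝ, 0 < κ → ∀ N₀ : ℕ, ∃ κ' C : ℝ, 0 < κ' ∧ 0 < C ∧ ∃ y₀ : ℕ, 16 ≤ y₀ ∧ ∀ y M : ℕ, y₀ ≤ y → 2 ≤ M →
      ∀ (S : Finset ℕ) (x : ℕ → ι → ℤ), (N₀ ≤ M → ∀ H : ℕ, (H : ℝ) ≤ (M : ℝ) ^ κ → Well S x H) →
      ((S.filter fun t => ¬ P κ' C M y (x t)).card : ℝ) ≤ 1 / (y : ℝ) ^ E * S.card)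
    (ρ : ℝ) (hρ : 0 < ρ) (hρ1 : ρ ≤ 1) :
    Boxes P E ∧
    (∀ (F : ι → Finset ℝ) (a : ι → ℝ → ℝ) (c : ι → ℝ),
      (∀ i, c i ∈ F i ∧ (∀ t ∈ F i, t ≤ c i) ∧ 0 < c i ∧ (∀ k : ℕ, c i ≠ k) ∧ 0 < a i (c i)) → Function.Injective c →
      AlmostAll P E (fun t i => ⌊∑ s ∈ F i, a i s * (t : ℝ) ^ s⌋)) ∧
    (∀ (u v : ι → ℝ) (F : ι → ℕ → ℝ → ℝ), (∀ j, Pool.Agent.N54.ME.Spread ρ (u j) (v j) (F j)) →
      ∀ᵐ ξ : ι → ℝ, (∀ i, ξ i ∈ Set.Ioc (u i) (v i)) → AlmostAll P E (fun t i => ⌊F i t (ξ i)⌋)) ∧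
    (∀ g h : ι → ℕ → ℝ, (∀ i, ∀ᶠ t : ℕ in atTop, (t : ℝ) ^ (ρ - 1) ≤ g i (t + 1) - g i t) →
      ∀ᵐ ξ : ι → ℝ, AlmostAll P E (fun t i => ⌊ξ i * g i t + h i t⌋)) ∧
    (∀ (g : ι → ℕ → ℕ) (h : ι → ℕ → ℝ), (∀ i, StrictMono (g i)) →
      ∀ᵐ ξ : ι → ℝ, (∀ i, 1 < ξ i) → AlmostAll P E (fun t i => ⌊ξ i ^ g i t + h i t⌋)) := by
  -- well distributed sequences
  have key : ∀ (x : ℕ → ι → ℤ) (κ : ℝ), 0 < κ → (∃ N₀ : ℕ, ∀ N : ℕ, N₀ ≤ N → ∀ H : ℕ, (H : ℝ) ≤ (N : ℝ) ^ κ →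
      Well (Ioc N (2 * N)) x H ∧ Well ((Ioc N (2 * N)).filter Nat.Prime) x H) → AlmostAll P E x := by
    intro x κ hκ hw
    obtain ⟨N₀, hw⟩ := hw
    obtain ⟨κ', C, hκ', hC, y₀, hy₀, h⟩ := hmain κ hκ N₀
    refine ⟨κ', C, hκ', hC, y₀, hy₀, fun y N hy hN => ⟨?_, ?_⟩⟩
    · exact h y N hy hN (Ioc N (2 * N)) x (fun hN0 H hH => (hw N hN0 H hH).1)
    · exact h y N hy hN ((Ioc N (2 * N)).filter Nat.Prime) x (fun hN0 H hH => (hw N hN0 H hH).2)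
  refine ⟨?_, ?_, ?_⟩
  · obtain ⟨N₀, hw⟩ := well_bx (ι := ι)
    obtain ⟨κ', C, hκ', hC, y₀, hy₀, h⟩ := hmain (1 / 4) (by norm_num) N₀
    refine ⟨κ', C, hκ', hC, y₀, hy₀, fun y N hy hN a L hL => ?_⟩
    obtain ⟨x, hx⟩ := exists_enum (bx a L)
    have h1 := h y N hy hN (range (bx a L).card) x (fun hN0 H hH => hw N hN0 H hH a L hL x hx)
    rw [card_range] at h1
    have h2 : ((bx a L).filter fun c => ¬ P κ' C N y c).card =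
        ((range (bx a L).card).filter fun n => ¬ P κ' C N y (x n)).card :=
      (@hx (fun c => ¬ P κ' C N y c) _ _).symm
    rw [h2]
    exact h1
  · intro F a c h hc
    obtain ⟨⟨κ₁, hκ₁, N₁, h₁⟩, κ₂, hκ₂, N₂, h₂⟩ := Pool.Agent.N666.TM.fl_well h hc
    refine key _ (min κ₁ κ₂) (lt_min hκ₁ hκ₂) ⟨N₁ + N₂ + 1, fun N hN H hH => ?_⟩
    have hN1 : (1 : ℝ) ≤ N := by exact_mod_cast (by omega : 1 ≤ N)
    exact ⟨h₁ N (by omega) H (hH.trans (Real.rpow_le_rpow_of_exponent_le hN1 (min_le_left _ _))),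
      h₂ N (by omega) H (hH.trans (Real.rpow_le_rpow_of_exponent_le hN1 (min_le_right _ _)))⟩
  · exact Pool.Agent.N54.ME.three hρ hρ1 (AlmostAll P E) fun x hx =>
      key x _ (Pool.Agent.N54.ME.kap_pos hρ _) hx

end

end Pool.Agent.Run7.h712.TS
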