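import Pool.Agent.Run7.h712.TS.Tw

/-!
# Sums of local logarithms over all primes at the members of well distributed families

`Pool.Agent.N534.LF.majorant` and `Pool.Agent.N666.TM.thin_majorant` bound these sums in mean square; here all but few of the members
are controlled, at all the points of a region simultaneously.
-/

set_option autoImplicit false

namespace Pool.Agent.Run7.h712.TS

open Finset Filter
open Pool.Agent.Y722.HS (EM red PR mem_PR EM_mono EM_const p_pos SS SS_nonneg sum_le_SS)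
open Pool.Agent.Y722.LS (EM_mul EM_add EM_nonneg Fam bb)
open Pool.Agent.N534.LF (Loc)
open Pool.Agent.N666.TM (Well)

/-- the sum of the reciprocals of the primes -/
lemma recip : ∃ C : ℝ, 0 ≤ C ∧ ∀ y : ℕ, 3 ≤ y → ∑ p ∈ PR y, 1 / (p : ℝ) ≤ 3 * Real.log (Real.log y) + C := by
  obtain ⟨C₀, hC₀, h⟩ := Pool.Agent.Y722.LS.prime_near
  refine ⟨3 * C₀, by positivity, fun y hy => ?_⟩
  have hy3 : (3 : ℝ) ≤ y := by exact_mod_cast hy
  have hlog : 1 < Real.log y := by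
    rw [Real.lt_log_iff_exp_lt (by linarith)]
    have := Real.exp_one_lt_d9
    linarith
  have hl0 : 0 < Real.log y := by linarith
  obtain ⟨ε, hε⟩ : ∃ ε, ε = 1 / Real.log y := ⟨_, rfl⟩
  have hε0 : 0 < ε := by rw [hε]; positivity
  have hε1 : ε ≤ 1 := by
    rw [hε, div_le_one hl0]
    exact hlog.le
  have h1 := h ε hε0 hε1 y (by omega) (by
    have h2 : Real.log y ≤ Real.log (y + 1) := Real.log_le_log (by linarith) (by linarith)
    have h3 : 1 ≤ ε * Real.log (y + 1) := by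
      rw [hε, one_div, inv_mul_eq_div, le_div_iff₀ hl0]
      linarith
    linarith)
  have h4 := (abs_le.1 h1).2
  have h5 : Real.log (1 / ε) = Real.log (Real.log y) := by rw [hε, one_div_one_div]
  rw [h5] at h4
  have h6 : ∀ p ∈ PR y, 1 / (p : ℝ) ≤ 3 * (p : ℝ) ^ (-1 - ε) := by
    intro p hp
    rw [mem_PR] at hp
    have hp0 : (0 : ℝ) < p := by exact_mod_cast hp.2.pos
    have hpy : (p : ℝ) ≤ y := by exact_mod_cast hp.1
    have h7 : (p : ℝ) ^ ε ≤ 3 := by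
      calc (p : ℝ) ^ ε ≤ (y : ℝ) ^ ε := Real.rpow_le_rpow hp0.le hpy hε0.le
        _ = Real.exp 1 := by
            rw [Real.rpow_def_of_pos (by linarith), hε, mul_one_div_cancel hl0.ne']
        _ ≤ 3 := by
            have := Real.exp_one_lt_d9
            linarith
    have h8 : (p : ℝ) ^ (-1 - ε) * (p : ℝ) ^ ε = 1 / p := by
      rw [← Real.rpow_add hp0, show -1 - ε + ε = (-1 : ℝ) by ring, Real.rpow_neg_one, one_div]
    rw [← h8, mul_comm (3 : ℝ)]
    exact mul_le_mul_of_nonneg_left h7 (by positivity)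
  refine (sum_le_sum h6).trans ?_
  rw [← mul_sum]
  linarith

lemma loglog {x : ℝ} (hx : 16 ≤ x) : 1 ≤ Real.log (Real.log x) := by
  have h1 : Real.log 16 = 4 * Real.log 2 := by
    rw [show (16 : ℝ) = 2 ^ 4 by norm_num, Real.log_pow]
    norm_num
  have h2 := Real.log_two_gt_d9
  have h3 : Real.log 16 ≤ Real.log x := Real.log_le_log (by norm_num) hx
  have h4 := Real.exp_one_lt_d9
  rw [Real.le_log_iff_exp_le (by linarith)]
  linarith

lemma ev_two : ∃ y₂ : ℕ, ∀ n : ℕ, y₂ ≤ n → 2 * ((n : ℝ) ^ (1 / 2 + 1 / 8 : ℝ) + 2) ≤ (n : ℝ) ^ (3 / 4 : ℝ) := by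
  have h1 : Tendsto (fun x : ℝ => x ^ (1 / 8 : ℝ)) atTop atTop := tendsto_rpow_atTop (by norm_num)
  have h4 : ∀ᶠ x : ℝ in atTop, 2 * (x ^ (1 / 2 + 1 / 8 : ℝ) + 2) ≤ x ^ (3 / 4 : ℝ) := by
    filter_upwards [h1.eventually (eventually_ge_atTop 6), eventually_ge_atTop 1] with x hx1 hx3
    have hx0 : 0 < x := by linarith
    have e1 : x ^ (3 / 4 : ℝ) = x ^ (1 / 2 + 1 / 8 : ℝ) * x ^ (1 / 8 : ℝ) := by
      rw [← Real.rpow_add hx0]
      norm_num
    have h5 : 1 ≤ x ^ (1 / 2 + 1 / 8 : ℝ) := Real.one_le_rpow hx3 (by norm_num)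
    rw [e1]
    nlinarith
  obtain ⟨y₂, h⟩ := eventually_atTop.1 (tendsto_natCast_atTop_atTop.eventually h4)
  exact ⟨y₂, h⟩

section
variable {ι : Type} [Fintype ι] [DecidableEq ι] {A β : ℝ} {N B : ∀ p : ℕ, (ι → ZMod p) → ℝ}

/-- the constant of the partial summation -/
noncomputable def KK : ℝ := (2 * 2 ^ (3 / 4 : ℝ)) / (1 - 2 ^ (-(1 / 4 : ℝ)))

lemma KK_nonneg : 0 ≤ KK := by
  unfold KK
  have h2ε : (2 : ℝ) ^ (-(1 / 4 : ℝ)) < 1 := Real.rpow_lt_one_of_one_lt_of_neg one_lt_two (by norm_num)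
  apply div_nonneg (by positivity)
  linarith

lemma sum_Ioc_prime {M : Type*} [AddCommMonoid M] (n : ℕ) (f : ℕ → M) :
    ∑ k ∈ Ioc 0 n, (if k.Prime then f k else 0) = ∑ p ∈ PR n, f p := by
  rw [← sum_filter]
  apply sum_congr _ fun _ _ => rfl
  ext k
  rw [mem_filter, mem_Ioc, mem_PR]
  constructor
  · rintro ⟨⟨_, h2⟩, h3⟩
    exact ⟨h2, h3⟩
  · rintro ⟨h1, h2⟩
    exact ⟨⟨h2.pos, h1⟩, h2⟩

/-- the bounded contribution of the large primes -/
lemma large (hF : Fam A N B) (hβ : 0 ≤ β) {y₂ : ℕ}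
    (hy₂ : ∀ n : ℕ, y₂ ≤ n → 2 * ((n : ℝ) ^ (1 / 2 + 1 / 8 : ℝ) + 2) ≤ (n : ℝ) ^ (3 / 4 : ℝ)) (y T : ℕ) (hy : y₂ ≤ y)
    (hy1 : 1 ≤ y) (hyβ : (6 * β) ^ 2 ≤ y) (hyT : y ≤ T) (c : ι → ℤ)
    (hS : ∀ n : ℕ, y ≤ n → n ≤ T → ∀ w ∈ Wt n, ∀ θ : Bool,
      |∑ p ∈ PR n, w p * fn N B θ p (red p c)| ≤ (n : ℝ) ^ (1 / 2 + 1 / 8 : ℝ))
    (lam : ℕ → ℂ → ℂ) (h : Loc β N B c lam) (u : ℂ) (hu : 0 ≤ u.re) (hui : |u.im| ≤ y) :
    ‖∑ p ∈ (Ioc y T).filter Nat.Prime, lam p u‖ ≤ KK + 7 * β * KK + β * SS := by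
  -- the truncated function
  have hone : (1 : ℝ) ≤ y := by exact_mod_cast hy1
  have hm : ∀ σ : ℝ, 1 ≤ σ → (y : ℝ) ^ ((3 / 4 : ℝ) - σ) ≤ 1 := fun σ hσ =>
    Real.rpow_le_one_of_one_le_of_nonpos hone (by linarith)
  have h1 : ‖∑ p ∈ (Ioc y T).filter Nat.Prime, (p : ℂ) ^ (-u) * ((tn N B p (red p c) / p : ℝ) : ℂ)‖ ≤ KK := by
    have hd := dyadic (3 / 4) (1 / 4) (by norm_num) (by norm_num) (fun k => if k.Prime then
      (tn N B k (red k c) : ℂ) * ((Real.cos (u.im * Real.log k) : ℂ) - (Real.sin (u.im * Real.log k) : ℂ) * Complex.I) else 0)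
      y T hy1 (fun n hn hnT => by
        rw [sum_Ioc_prime n (fun k => (tn N B k (red k c) : ℂ) *
          ((Real.cos (u.im * Real.log k) : ℂ) - (Real.sin (u.im * Real.log k) : ℂ) * Complex.I))]
        have h2 := twist n (by omega) (fun p => tn N B p (red p c)) (fun p _ => tn_abs p _) ((n : ℝ) ^ (1 / 2 + 1 / 8 : ℝ))
          (fun w hw => hS n hn hnT w hw true) u.im (hui.trans (by exact_mod_cast hn))
        exact h2.trans (hy₂ n (by omega))) (1 + u.re) (by linarith) y T le_rfl hyT le_rfl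
    have h3 : ∑ k ∈ Ioc y T, (if k.Prime then
      (tn N B k (red k c) : ℂ) * ((Real.cos (u.im * Real.log k) : ℂ) - (Real.sin (u.im * Real.log k) : ℂ) * Complex.I) else 0) *
        (((k : ℝ) ^ (-(1 + u.re)) : ℝ) : ℂ) =
        ∑ p ∈ (Ioc y T).filter Nat.Prime, (p : ℂ) ^ (-u) * ((tn N B p (red p c) / p : ℝ) : ℂ) := by
      rw [sum_filter]
      refine sum_congr rfl fun k hk => ?_
      split_ifs with hkp
      · have hk0 : (0 : ℝ) < k := by exact_mod_cast hkp.pos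
        rw [cpow_eq k hkp.pos u, neg_add, Real.rpow_add hk0, Real.rpow_neg_one]
        push_cast
        field_simp
      · rw [zero_mul]
    rw [h3] at hd
    refine hd.trans ?_
    have h4 := hm (1 + u.re) (by linarith)
    have h5 := KK_nonneg
    unfold KK at h5 ⊢
    exact mul_le_of_le_one_right h5 h4
  have h2 : ∑ p ∈ (Ioc y T).filter Nat.Prime, B p (red p c) / p ≤ KK := by
    have hd := dyadic (3 / 4) (1 / 4) (by norm_num) (by norm_num) (fun k => if k.Prime then (B k (red k c) : ℂ) else 0)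
      y T hy1 (fun n hn hnT => by
        rw [sum_Ioc_prime n (fun k => (B k (red k c) : ℂ))]
        have h2 := hS n hn hnT _ (one_mem_Wt n) false
        simp only [one_mul] at h2
        have h3 : ‖∑ k ∈ PR n, (B k (red k c) : ℂ)‖ = |∑ p ∈ PR n, fn N B false p (red p c)| := by
          rw [← Complex.ofReal_sum, Complex.norm_real, Real.norm_eq_abs]
          rfl
        rw [h3]
        have h4 := hy₂ n (by omega)
        have h5 : 0 ≤ (n : ℝ) ^ (1 / 2 + 1 / 8 : ℝ) := by positivity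
        linarith) 1 (by norm_num) y T le_rfl hyT le_rfl
    have h3 : ∑ k ∈ Ioc y T, (if k.Prime then (B k (red k c) : ℂ) else 0) * (((k : ℝ) ^ (-(1 : ℝ)) : ℝ) : ℂ) =
        ((∑ p ∈ (Ioc y T).filter Nat.Prime, B p (red p c) / p : ℝ) : ℂ) := by
      rw [sum_filter, Complex.ofReal_sum]
      refine sum_congr rfl fun k hk => ?_
      split_ifs with hkp
      · rw [Real.rpow_neg_one]
        push_cast
        rw [div_eq_mul_inv]
      · rw [zero_mul, Complex.ofReal_zero]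
    rw [h3, Complex.norm_real] at hd
    refine (Real.le_norm_self _).trans (hd.trans ?_)
    have h4 := hm 1 le_rfl
    have h5 := KK_nonneg
    unfold KK at h5 ⊢
    exact mul_le_of_le_one_right h5 h4
  have h3 : ‖∑ p ∈ (Ioc y T).filter Nat.Prime, lam p u -
      ∑ p ∈ (Ioc y T).filter Nat.Prime, (p : ℂ) ^ (-u) * ((tn N B p (red p c) / p : ℝ) : ℂ)‖ ≤ 7 * β * KK + β * SS := by
    rw [← sum_sub_distrib]
    refine (norm_sum_le _ _).trans ?_
    have h4 : ∀ p ∈ (Ioc y T).filter Nat.Prime, ‖lam p u - (p : ℂ) ^ (-u) * ((tn N B p (red p c) / p : ℝ) : ℂ)‖ ≤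
        7 * β * (B p (red p c) / p) + β * (1 / (p : ℝ) ^ ((3 : ℝ) / 2)) := by
      intro p hp
      rw [mem_filter, mem_Ioc] at hp
      refine lam_near hβ hF h p hp.2 (hyβ.trans ?_) u hu
      exact_mod_cast hp.1.1.le
    refine (sum_le_sum h4).trans ?_
    rw [sum_add_distrib, ← mul_sum, ← mul_sum]
    have h5 := mul_le_mul_of_nonneg_left (sum_le_SS ((Ioc y T).filter Nat.Prime)) hβ
    have h6 : 7 * β * ∑ p ∈ (Ioc y T).filter Nat.Prime, B p (red p c) / p ≤ 7 * β * KK :=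
      mul_le_mul_of_nonneg_left h2 (by positivity)
    linarith
  have h4 := norm_sub_norm_le (∑ p ∈ (Ioc y T).filter Nat.Prime, lam p u)
    (∑ p ∈ (Ioc y T).filter Nat.Prime, (p : ℂ) ^ (-u) * ((tn N B p (red p c) / p : ℝ) : ℂ))
  linarith

/-- the small primes -/
lemma small (hβ : 0 ≤ β) (y : ℕ) (c : ι → ℤ) (lam : ℕ → ℂ → ℂ) (h : Loc β N B c lam) (u : ℂ) (hu : 0 ≤ u.re) :
    ‖∑ p ∈ PR y, lam p u‖ ≤ β * ∑ p ∈ PR y, 1 / (p : ℝ) := by
  refine (norm_sum_le _ _).trans ?_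
  rw [mul_sum]
  refine sum_le_sum fun p hp => ?_
  rw [mem_PR] at hp
  have hp1 : (1 : ℝ) ≤ p := by exact_mod_cast hp.2.one_lt.le
  refine (h.bound p hp.2 u hu).trans (mul_le_mul_of_nonneg_left ?_ hβ)
  rw [one_div, ← Real.rpow_neg_one]
  exact Real.rpow_le_rpow_of_exponent_le hp1 (by linarith)

/-- **A deterministic bound.** -/
theorem det (hF : Fam A N B) (hβ : 0 ≤ β) : ∃ C : ℝ, 0 ≤ C ∧ ∃ y₁ : ℕ, 16 ≤ y₁ ∧ ∀ y T : ℕ, y₁ ≤ y → ∀ c : ι → ℤ,
    (∀ n : ℕ, y ≤ n → n ≤ T → ∀ w ∈ Wt n, ∀ θ : Bool,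
      |∑ p ∈ PR n, w p * fn N B θ p (red p c)| ≤ (n : ℝ) ^ (1 / 2 + 1 / 8 : ℝ)) →
    ∀ lam : ℕ → ℂ → ℂ, Loc β N B c lam → ∀ u : ℂ, 0 < u.re → u.re ≤ 1 → |u.im| ≤ max (y : ℝ) T → ∀ Λ : ℝ, 0 ≤ Λ →
      1 ≤ Λ * (u.re * Real.log (T + 1)) →
      ‖∑' p : Nat.Primes, lam p u‖ ≤ C * Real.log (Real.log (y + |u.im|)) + 16 * β * Λ := by
  obtain ⟨C₀, hC₀, hrec⟩ := recip
  obtain ⟨y₂, hy₂⟩ := ev_two
  have hK := KK_nonneg
  have hSS := SS_nonneg
  refine ⟨3 * β + β * C₀ + (KK + 7 * β * KK + β * SS), by positivity, ⌈(6 * β) ^ 2⌉₊ + y₂ + 16, by omega, ?_⟩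
  intro y T hy c hS lam h u hu hu1 hui Λ hΛ hΛ1
  have hyβ : (6 * β) ^ 2 ≤ y := (Nat.le_ceil _).trans (by exact_mod_cast (by omega : ⌈(6 * β) ^ 2⌉₊ ≤ y))
  have hy16 : (16 : ℝ) ≤ y := by exact_mod_cast (by omega : 16 ≤ y)
  have habs := abs_nonneg u.im
  have hll : 1 ≤ Real.log (Real.log (y + |u.im|)) := loglog (by linarith)
  obtain ⟨y', hy'⟩ : ∃ y' : ℕ, y' = max y ⌈|u.im|⌉₊ := ⟨_, rfl⟩
  have hy'1 : y ≤ y' := by rw [hy']; exact le_max_left _ _
  have hy'2 : |u.im| ≤ y' := (Nat.le_ceil _).trans (by rw [hy']; exact_mod_cast le_max_right _ _)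
  have hy'3 : (y' : ℝ) ≤ y + |u.im| := by
    rw [hy', Nat.cast_max]
    apply max_le
    · linarith
    · have := Nat.ceil_lt_add_one habs
      linarith
  have hy'4 : y' ≤ max y T := by
    rw [hy']
    apply max_le (le_max_left _ _)
    rw [Nat.ceil_le, Nat.cast_max]
    exact hui
  have hy'r : (16 : ℝ) ≤ y' := hy16.trans (by exact_mod_cast hy'1)
  -- the sum over the small primes
  have h1 : ‖∑ p ∈ PR y', lam p u‖ ≤ 3 * β * Real.log (Real.log (y + |u.im|)) + β * C₀ := by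
    refine (small hβ y' c lam h u hu.le).trans ?_
    have h2 := hrec y' (by omega)
    have h3 : Real.log (Real.log y') ≤ Real.log (Real.log (y + |u.im|)) := by
      apply Real.log_le_log (Real.log_pos (by linarith))
      exact Real.log_le_log (by linarith) hy'3
    calc β * ∑ p ∈ PR y', 1 / (p : ℝ) ≤ β * (3 * Real.log (Real.log (y + |u.im|)) + C₀) := by
          apply mul_le_mul_of_nonneg_left _ hβ
          linarith
      _ = _ := by ring
  obtain ⟨T', hT'⟩ : ∃ T' : ℕ, T' = max y T := ⟨_, rfl⟩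
  have hT'1 : 1 ≤ T' := by
    rw [hT']
    exact le_trans (by omega) (le_max_left _ _)
  -- the tail
  have h2 := h.tail hβ hu hu1 T' hT'1
  have h3 : β * (16 / (u.re * Real.log (T' + 1))) ≤ 16 * β * Λ := by
    have hTT : (T : ℝ) ≤ T' := by rw [hT']; exact_mod_cast le_max_right _ _
    have hT0 : (0 : ℝ) ≤ T := Nat.cast_nonneg _
    have h4 : Real.log (T + 1) ≤ Real.log (T' + 1) := Real.log_le_log (by linarith) (by linarith)
    have h5 : 0 < Real.log (T' + 1) := Real.log_pos (by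
      have : (1 : ℝ) ≤ T' := by exact_mod_cast hT'1
      linarith)
    have h6 : 1 ≤ Λ * (u.re * Real.log (T' + 1)) := by
      refine hΛ1.trans ?_
      gcongr
    have h7 : 16 / (u.re * Real.log (T' + 1)) ≤ 16 * Λ := by
      rw [div_le_iff₀ (by positivity)]
      linarith
    calc β * (16 / (u.re * Real.log (T' + 1))) ≤ β * (16 * Λ) := mul_le_mul_of_nonneg_left h7 hβ
      _ = _ := by ring
  -- the sum over the large primes
  have h4 : ‖∑ p ∈ PR T', lam p u‖ ≤ ‖∑ p ∈ PR y', lam p u‖ + (KK + 7 * β * KK + β * SS) := by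
    by_cases hTy : y ≤ T
    · have hT'' : T' = T := by rw [hT', max_eq_right hTy]
      rw [hT''] at hT'1 ⊢
      have hy'T : y' ≤ T := by
        rw [← hT'', hT']
        exact hy'4
      have h5 : ∑ p ∈ PR T, lam p u = ∑ p ∈ PR y', lam p u + ∑ p ∈ (Ioc y' T).filter Nat.Prime, lam p u := by
        rw [← sum_union]
        · apply sum_congr _ fun _ _ => rfl
          ext p
          rw [mem_union, mem_PR, mem_PR, mem_filter, mem_Ioc]
          constructor
          · rintro ⟨h6, h7⟩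
            by_cases h8 : p ≤ y'
            · exact Or.inl ⟨h8, h7⟩
            · exact Or.inr ⟨⟨by omega, h6⟩, h7⟩
          · rintro (⟨h6, h7⟩ | ⟨⟨_, h6⟩, h7⟩)
            · exact ⟨by omega, h7⟩
            · exact ⟨h6, h7⟩
        · rw [disjoint_left]
          intro p hp hp'
          rw [mem_PR] at hp
          rw [mem_filter, mem_Ioc] at hp'
          omega
      rw [h5]
      refine (norm_add_le _ _).trans (add_le_add le_rfl ?_)
      exact large hF hβ hy₂ y' T (by omega) (by omega) (hyβ.trans (by exact_mod_cast hy'1)) hy'T c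
        (fun n hn hnT => hS n (by omega) hnT) lam h u hu.le hy'2
    · have hT'' : T' = y' := by
        have : T' = y := by rw [hT']; exact max_eq_left (by omega)
        rw [← hT', this] at hy'4
        omega
      rw [hT'']
      have : 0 ≤ KK + 7 * β * KK + β * SS := by positivity
      linarith
  have h5 := norm_sub_norm_le (∑' p : Nat.Primes, lam p u) (∑ p ∈ PR T', lam p u)
  have h6 : β * C₀ + (KK + 7 * β * KK + β * SS) ≤ (β * C₀ + (KK + 7 * β * KK + β * SS)) * Real.log (Real.log (y + |u.im|)) :=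
    le_mul_of_one_le_right (by positivity) hll
  have h7 : (3 * β + β * C₀ + (KK + 7 * β * KK + β * SS)) * Real.log (Real.log (y + |u.im|)) =
      3 * β * Real.log (Real.log (y + |u.im|)) + (β * C₀ + (KK + 7 * β * KK + β * SS)) * Real.log (Real.log (y + |u.im|)) := by ring
  rw [h7]
  linarith

/-- The members of the family with small sums at all points of the region. -/
def Good (β : ℝ) (N B : ∀ p : ℕ, (ι → ZMod p) → ℝ) (κ C : ℝ) (M y : ℕ) (c : ι → ℤ) : Prop :=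
  ∀ lam : ℕ → ℂ → ℂ, Loc β N B c lam → ∀ u : ℂ, 1 / Real.log M ≤ u.re → u.re ≤ 1 →
    |u.im| ≤ (M : ℝ) ^ κ → ‖∑' p : Nat.Primes, lam p u‖ ≤ C * Real.log (Real.log (y + |u.im|))

open Classical in
/-- **The abstract theorem.** -/
theorem abs_main (hF : Fam A N B) (hβ : 0 ≤ β) (E : ℕ) {κ : ℝ} (hκ : 0 < κ) (N₀ : ℕ) :
    ∃ κ' C : ℝ, 0 < κ' ∧ 0 < C ∧ ∃ y₀ : ℕ, 16 ≤ y₀ ∧ ∀ y M : ℕ, y₀ ≤ y → 2 ≤ M → ∀ (S : Finset ℕ) (x : ℕ → ι → ℤ),
      (N₀ ≤ M → ∀ H : ℕ, (H : ℝ) ≤ (M : ℝ) ^ κ → Well S x H) →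
      ((S.filter fun t => ¬ Good β N B κ' C M y (x t)).card : ℝ) ≤ 1 / (y : ℝ) ^ E * S.card := by
  have hA := hF.A0
  obtain ⟨Me, x₀, hMe, heng⟩ := eng (ι := ι) (1 / 8) (by norm_num) E 6 (univ : Finset Bool) (fn N B) (4 * A) (by linarith)
    (fun θ _ p _ u => fn_abs hF θ p u) (fun θ _ p _ => fn_sq hF θ p) (fun θ _ p _ => fn_mean hF θ p)
  obtain ⟨C₁, hC₁, y₁, hy₁, hdet⟩ := det hF hβ
  obtain ⟨κ₁, hκ₁⟩ : ∃ κ₁ : ℝ, κ₁ = κ / Me := ⟨_, rfl⟩
  have hMer : (0 : ℝ) < Me := by exact_mod_cast (by omega : 0 < Me)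
  have hκ₁0 : 0 < κ₁ := by rw [hκ₁]; positivity
  obtain ⟨y₃, hy₃⟩ := exists_nat_gt ((N₀ : ℝ) ^ κ₁)
  refine ⟨κ₁ / 2, C₁ + 16 * β * (1 / κ₁) + 1, by positivity, by positivity, x₀ + y₁ + y₃ + 16, by omega, ?_⟩
  intro y M hy hM S x hw
  have hM2 : (2 : ℝ) ≤ M := by exact_mod_cast hM
  have hM0 : (0 : ℝ) < M := by linarith
  have hlogM : 0 < Real.log M := Real.log_pos (by linarith)
  obtain ⟨T, hT⟩ : ∃ T : ℕ, T = ⌊(M : ℝ) ^ κ₁⌋₊ := ⟨_, rfl⟩
  have hT1 : (T : ℝ) ≤ (M : ℝ) ^ κ₁ := by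
    rw [hT]
    exact Nat.floor_le (by positivity)
  have hT2 : (M : ℝ) ^ κ₁ < T + 1 := by
    rw [hT]
    exact Nat.lt_floor_add_one _
  -- the members with small sums
  have key : ∀ t : ℕ, (∀ n : ℕ, y ≤ n → n ≤ T → ∀ w ∈ Wt n, ∀ θ : Bool,
      |∑ p ∈ PR n, w p * fn N B θ p (red p (x t))| ≤ (n : ℝ) ^ (1 / 2 + 1 / 8 : ℝ)) →
      Good β N B (κ₁ / 2) (C₁ + 16 * β * (1 / κ₁) + 1) M y (x t) := by
    intro t hS lam hlam u hu1 hu2 hui
    have hu0 : 0 < u.re := lt_of_lt_of_le (by positivity) hu1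
    have hy16 : (16 : ℝ) ≤ y := by exact_mod_cast (by omega : 16 ≤ y)
    have hll : 1 ≤ Real.log (Real.log (y + |u.im|)) := loglog (by have := abs_nonneg u.im; linarith)
    have h1 : |u.im| ≤ max (y : ℝ) T := by
      have h2 : (M : ℝ) ^ κ₁ ≤ (max (y : ℝ) T) ^ 2 := by
        have h3 : (y : ℝ) ≤ max (y : ℝ) T := le_max_left _ _
        have h4 : (T : ℝ) ≤ max (y : ℝ) T := le_max_right _ _
        nlinarith
      have h3 : (M : ℝ) ^ (κ₁ / 2) ≤ max (y : ℝ) T := by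
        have h4 : ((M : ℝ) ^ (κ₁ / 2)) ^ 2 ≤ (max (y : ℝ) T) ^ 2 := by
          rw [← Real.rpow_natCast ((M : ℝ) ^ (κ₁ / 2)), ← Real.rpow_mul hM0.le]
          convert h2 using 2
          push_cast
          ring
        exact le_of_sq_le_sq h4 (by linarith [le_max_left (y : ℝ) T])
      exact hui.trans h3
    have h2 : 1 ≤ (1 / κ₁) * (u.re * Real.log (T + 1)) := by
      have h3 : κ₁ * Real.log M ≤ Real.log (T + 1) := by
        rw [← Real.log_rpow hM0]
        exact Real.log_le_log (by positivity) hT2.le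
      have h4 : 1 ≤ u.re * Real.log M := by
        rw [div_le_iff₀ hlogM] at hu1
        exact hu1
      calc (1 : ℝ) ≤ u.re * Real.log M := h4
        _ = (1 / κ₁) * (u.re * (κ₁ * Real.log M)) := by field_simp
        _ ≤ _ := by gcongr
    have h3 := hdet y T (by omega) (x t) hS lam hlam u hu0 hu2 h1 (1 / κ₁) (by positivity) h2
    refine h3.trans ?_
    have h4 : 16 * β * (1 / κ₁) ≤ 16 * β * (1 / κ₁) * Real.log (Real.log (y + |u.im|)) :=
      le_mul_of_one_le_right (by positivity) hll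
    nlinarith
  by_cases hMN : N₀ ≤ M
  · obtain ⟨H, hH⟩ : ∃ H : ℕ, H = ⌊(M : ℝ) ^ κ⌋₊ := ⟨_, rfl⟩
    have hH1 : (H : ℝ) ≤ (M : ℝ) ^ κ := by
      rw [hH]
      exact Nat.floor_le (by positivity)
    have hH2 : (M : ℝ) ^ κ < H + 1 := by
      rw [hH]
      exact Nat.lt_floor_add_one _
    have h1 := heng S x H y (hw hMN H hH1) (by omega) (fun n => if n < 2 then ∅ else Wt n) (fun n _ => by
        beta_reduce
        split_ifs with h
        · rw [card_empty]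
          exact Nat.zero_le _
        · exact card_Wt n (by omega)) (fun n w hw p => by
        beta_reduce at hw
        split_ifs at hw with h
        · exact absurd hw (notMem_empty _)
        · exact Wt_le n w hw p)
    refine le_trans ?_ h1
    have h2 : (S.filter fun t => ¬ Good β N B (κ₁ / 2) (C₁ + 16 * β * (1 / κ₁) + 1) M y (x t)) ⊆
        S.filter fun n => ¬ ∀ T : ℕ, y ≤ T → T ^ Me ≤ 2 * H + 1 → ∀ w ∈ (if T < 2 then ∅ else Wt T),
          ∀ θ ∈ (univ : Finset Bool), |∑ p ∈ PR T, w p * fn N B θ p (red p (x n))| ≤ (T : ℝ) ^ (1 / 2 + 1 / 8 : ℝ) := by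
      intro t ht
      rw [mem_filter] at ht ⊢
      refine ⟨ht.1, fun h3 => ht.2 (key t fun n hn hnT w hw θ => h3 n hn ?_ w ?_ θ (mem_univ _))⟩
      · have h4 : ((n ^ Me : ℕ) : ℝ) ≤ (M : ℝ) ^ κ := by
          push_cast
          calc (n : ℝ) ^ Me ≤ ((M : ℝ) ^ κ₁) ^ Me := by
                apply pow_le_pow_left₀ (by positivity)
                refine le_trans ?_ hT1
                exact_mod_cast hnT
            _ = (M : ℝ) ^ κ := by
                rw [← Real.rpow_natCast, ← Real.rpow_mul hM0.le, hκ₁]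
                congr 1
                field_simp
        have h5 : ((n ^ Me : ℕ) : ℝ) < ((2 * H + 1 : ℕ) : ℝ) + 1 := by
          have : (0 : ℝ) ≤ H := Nat.cast_nonneg _
          push_cast at h4 ⊢
          linarith
        have h6 : n ^ Me < 2 * H + 1 + 1 := by exact_mod_cast h5
        omega
      · rw [if_neg (by omega)]
        exact hw
    exact_mod_cast card_le_card h2
  · have hy3 : ¬ y ≤ T := by
      intro h1
      have h2 : (M : ℝ) ^ κ₁ ≤ (N₀ : ℝ) ^ κ₁ := by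
        apply Real.rpow_le_rpow hM0.le _ hκ₁0.le
        exact_mod_cast (by omega : M ≤ N₀)
      have h3 : (y₃ : ℝ) ≤ T := by exact_mod_cast (by omega : y₃ ≤ T)
      linarith
    rw [Finset.filter_false_of_mem (fun t _ => not_not.2 (key t fun n hn hnT => absurd (hn.trans hnT) hy3)), card_empty,
      Nat.cast_zero]
    positivity

end

end Pool.Agent.Run7.h712.TS
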