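import Pool.Agent.Run7.h712.TS.Main

/-!
# Boxes are well distributed
-/

set_option autoImplicit false

namespace Pool.Agent.Run7.h712.TS

open Finset Filter
open Pool.Agent.Y722.HS (red pow_bd)
open Pool.Agent.N666.TM (Well)

/-- the number of the integers of an interval in a residue class -/
lemma cnt_Ioc (a : ℤ) (L N : ℕ) (hN : 0 < N) (v : ℤ) :
    |((#{z ∈ Ioc a (a + L) | z ≡ v [ZMOD N]} : ℕ) : ℝ) - L / N| ≤ 1 := by
  have h1 := Int.Ioc_filter_modEq_card a (a + L) (r := (N : ℤ)) (by exact_mod_cast hN) v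
  have hNq : (0 : ℚ) < N := by exact_mod_cast hN
  set A : ℚ := (((a + L : ℤ) : ℚ) - v) / ((N : ℤ) : ℚ) with hA
  set B : ℚ := (((a : ℤ) : ℚ) - v) / ((N : ℤ) : ℚ) with hB
  have hAB : A - B = L / N := by
    rw [hA, hB]; push_cast; field_simp; ring
  have hpos : 0 ≤ A - B := by rw [hAB]; positivity
  have hfl : 0 ≤ ⌊A⌋ - ⌊B⌋ := by
    have : ⌊B⌋ ≤ ⌊A⌋ := Int.floor_le_floor (by linarith)
    omega
  rw [max_eq_left hfl] at h1
  have h2 : |(((⌊A⌋ - ⌊B⌋ : ℤ)) : ℚ) - (A - B)| ≤ 1 := by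
    push_cast
    have a1 := Int.floor_le A
    have a2 := Int.lt_floor_add_one A
    have b1 := Int.floor_le B
    have b2 := Int.lt_floor_add_one B
    rw [abs_le]
    constructor <;> linarith
  rw [← h1, hAB] at h2
  have h3 : |((((#{z ∈ Finset.Ioc a (a + L) | z ≡ v [ZMOD N]} : ℕ) : ℤ) : ℚ) : ℝ) -
      (((L : ℚ) / N : ℚ) : ℝ)| ≤ 1 := by
    have := (Rat.cast_le (K := ℝ)).mpr h2
    push_cast at this ⊢
    exact this
  push_cast at h3
  exact h3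

lemma cnt_Ioc' (a : ℤ) (L q : ℕ) [NeZero q] (r : ZMod q) :
    |((#{z ∈ Ioc a (a + L) | ((z : ℤ) : ZMod q) = r} : ℕ) : ℝ) - L / q| ≤ 1 := by
  have h1 := cnt_Ioc a L q (Nat.pos_of_ne_zero (NeZero.ne q)) (r.cast : ℤ)
  have h2 : {z ∈ Ioc a (a + L) | ((z : ℤ) : ZMod q) = r} =
      {z ∈ Ioc a (a + L) | z ≡ (r.cast : ℤ) [ZMOD q]} := by
    refine Finset.filter_congr fun z _ => ?_
    rw [← ZMod.intCast_eq_intCast_iff, ZMod.intCast_zmod_cast]
  rw [h2]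
  exact h1

lemma prod_one {ι : Type*} (s : Finset ι) (x : ι → ℝ) (t : ℝ) (ht : 0 ≤ t) (hx : ∀ i ∈ s, 0 ≤ x i)
    (h : ∀ i ∈ s, |x i - 1| ≤ t) : 0 ≤ ∏ i ∈ s, x i ∧ |∏ i ∈ s, x i - 1| ≤ (1 + t) ^ s.card - 1 := by
  classical
  induction s using Finset.induction_on with
  | empty => simp
  | insert a s ha ih =>
    obtain ⟨h1, h3⟩ := ih (fun i hi => hx i (Finset.mem_insert_of_mem hi))
      (fun i hi => h i (Finset.mem_insert_of_mem hi))
    have hxa := hx a (Finset.mem_insert_self a s)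
    have ha1 := h a (Finset.mem_insert_self a s)
    rw [Finset.prod_insert ha, Finset.card_insert_of_notMem ha]
    refine ⟨mul_nonneg hxa h1, ?_⟩
    have e : x a * ∏ i ∈ s, x i - 1 = (x a - 1) * ∏ i ∈ s, x i + (∏ i ∈ s, x i - 1) := by ring
    rw [e]
    refine (abs_add_le _ _).trans ?_
    rw [abs_mul, abs_of_nonneg h1]
    have h2 : ∏ i ∈ s, x i ≤ (1 + t) ^ s.card := by linarith [(abs_le.1 h3).2]
    have h4 : |x a - 1| * ∏ i ∈ s, x i ≤ t * (1 + t) ^ s.card := by gcongr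
    calc _ ≤ t * (1 + t) ^ s.card + ((1 + t) ^ s.card - 1) := add_le_add h4 h3
      _ = _ := by ring

/-- an enumeration -/
lemma exists_enum {α : Type*} [Inhabited α] (T : Finset α) : ∃ x : ℕ → α, ∀ (P : α → Prop) [DecidablePred P]
    [DecidablePred fun n => P (x n)], ((range T.card).filter fun n => P (x n)).card = (T.filter P).card := by
  classical
  obtain ⟨e, -⟩ : ∃ _ : T ≃ Fin T.card, True := ⟨T.equivFin, trivial⟩
  refine ⟨fun n => if h : n < T.card then (e.symm ⟨n, h⟩ : α) else default, fun P _ _ => ?_⟩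
  refine card_bij' (fun n _ => if h : n < T.card then (e.symm ⟨n, h⟩ : α) else default)
    (fun c _ => if h : c ∈ T then ((e ⟨c, h⟩ : Fin T.card) : ℕ) else 0) ?_ ?_ ?_ ?_
  · intro n hn
    rw [mem_filter, mem_range] at hn
    rw [mem_filter]
    refine ⟨?_, hn.2⟩
    rw [dif_pos hn.1]
    exact (e.symm ⟨n, hn.1⟩).2
  · intro c hc
    rw [mem_filter] at hc
    rw [dif_pos hc.1, mem_filter, mem_range]
    refine ⟨(e ⟨c, hc.1⟩).2, ?_⟩
    beta_reduce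
    rw [dif_pos (e ⟨c, hc.1⟩).2]
    simpa using hc.2
  · intro n hn
    rw [mem_filter, mem_range] at hn
    simp only [dif_pos hn.1]
    rw [dif_pos (e.symm ⟨n, hn.1⟩).2]
    simp
  · intro c hc
    rw [mem_filter] at hc
    simp only [dif_pos hc.1]
    rw [dif_pos (e ⟨c, hc.1⟩).2]
    simp

section
variable {ι : Type} [Fintype ι] [DecidableEq ι]

/-- the integer points of a box -/
noncomputable def bx (a : ι → ℤ) (L : ι → ℕ) : Finset (ι → ℤ) := Fintype.piFinset fun i => Ioc (a i) (a i + L i)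

lemma card_bx (a : ι → ℤ) (L : ι → ℕ) : (bx a L).card = ∏ i, L i := by
  unfold bx
  rw [Fintype.card_piFinset]
  refine prod_congr rfl fun i _ => ?_
  rw [Int.card_Ioc]
  simp

/-- **Boxes are well distributed.** -/
theorem well_bx : ∃ N₀ : ℕ, ∀ M : ℕ, N₀ ≤ M → ∀ H : ℕ, (H : ℝ) ≤ (M : ℝ) ^ (1 / 4 : ℝ) → ∀ (a : ι → ℤ) (L : ι → ℕ),
    (∀ i, M ≤ L i) → ∀ x : ℕ → ι → ℤ, (∀ (P : (ι → ℤ) → Prop) [DecidablePred P] [DecidablePred fun n => P (x n)],
      ((range (bx a L).card).filter fun n => P (x n)).card = ((bx a L).filter P).card) →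
    Well (range (bx a L).card) x H := by
  classical
  obtain ⟨D, hD⟩ : ∃ D, D = Fintype.card ι := ⟨_, rfl⟩
  refine ⟨(9 * 2 ^ D) ^ 2 + 1, fun M hM H hH a L hL x hx => ?_⟩
  have hMr : ((9 * 2 ^ D) ^ 2 : ℝ) ≤ M := by exact_mod_cast (by omega : (9 * 2 ^ D) ^ 2 ≤ M)
  have hM1 : (1 : ℝ) ≤ M := by exact_mod_cast (by omega : 1 ≤ M)
  have hM0 : (0 : ℝ) < M := by linarith
  have hLpos : ∀ i, 0 < L i := fun i => by have := hL i; omega
  have hcard : 0 < (bx a L).card := by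
    rw [card_bx]
    exact prod_pos fun i _ => hLpos i
  refine ⟨by rw [card_range]; exact hcard, fun q hq1 hq ρ => ?_⟩
  have hqz : NeZero q := ⟨by omega⟩
  have hq0 : (0 : ℝ) < q := by exact_mod_cast hq1
  have hqH : (q : ℝ) ≤ 2 * H + 1 := by exact_mod_cast hq
  have hH0 : (0 : ℝ) ≤ H := Nat.cast_nonneg _
  rw [card_range, hx (fun c => red q c = ρ)]
  -- the product
  have h1 : ((#{c ∈ bx a L | red q c = ρ} : ℕ) : ℝ) / (bx a L).card =
      1 / (q : ℝ) ^ Fintype.card ι * ∏ i, (((#{z ∈ Ioc (a i) (a i + L i) | ((z : ℤ) : ZMod q) = ρ i} : ℕ) : ℝ) * q / L i) := by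
    have e1 : #{c ∈ bx a L | red q c = ρ} = ∏ i, #{z ∈ Ioc (a i) (a i + L i) | ((z : ℤ) : ZMod q) = ρ i} := by
      rw [← Fintype.card_piFinset]
      congr 1
      ext c
      simp only [bx, Finset.mem_filter, Fintype.mem_piFinset, red, funext_iff]
      exact forall_and.symm
    rw [e1, card_bx, prod_div_distrib, prod_mul_distrib, prod_const, card_univ]
    push_cast
    have : (∏ i, (L i : ℝ)) ≠ 0 := prod_ne_zero_iff.2 fun i _ => by
      have := hLpos i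
      positivity
    field_simp
  rw [h1, ← mul_sub_one, abs_mul, abs_of_pos (by positivity : (0 : ℝ) < 1 / (q : ℝ) ^ Fintype.card ι), mul_comm]
  apply mul_le_mul_of_nonneg_right _ (by positivity)
  -- each factor
  have ht0 : (0 : ℝ) ≤ q / M := by positivity
  have h3 := (prod_one (univ : Finset ι) (fun i => ((#{z ∈ Ioc (a i) (a i + L i) | ((z : ℤ) : ZMod q) = ρ i} : ℕ) : ℝ) * q / L i)
    (q / M) ht0 (fun i _ => by positivity) (fun i _ => by
      have hL0 : (0 : ℝ) < L i := by exact_mod_cast hLpos i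
      have hLM : (M : ℝ) ≤ L i := by exact_mod_cast hL i
      have h4 := cnt_Ioc' (a i) (L i) q (ρ i)
      have e2 : ((#{z ∈ Ioc (a i) (a i + L i) | ((z : ℤ) : ZMod q) = ρ i} : ℕ) : ℝ) * q / L i - 1 =
          (((#{z ∈ Ioc (a i) (a i + L i) | ((z : ℤ) : ZMod q) = ρ i} : ℕ) : ℝ) - L i / q) * (q / L i) := by
        field_simp
      show |((#{z ∈ Ioc (a i) (a i + L i) | ((z : ℤ) : ZMod q) = ρ i} : ℕ) : ℝ) * q / L i - 1| ≤ q / M
      rw [e2, abs_mul, abs_of_pos (by positivity : (0 : ℝ) < q / L i)]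
      calc _ ≤ 1 * ((q : ℝ) / L i) := mul_le_mul_of_nonneg_right h4 (by positivity)
        _ = (q : ℝ) / L i := one_mul _
        _ ≤ q / M := div_le_div_of_nonneg_left hq0.le hM0 hLM)).2
  refine h3.trans ?_
  rw [card_univ, ← hD]
  -- the size of the error
  have h5 : (2 * (H : ℝ) + 1) ^ 2 ≤ 9 * (M : ℝ) ^ (1 / 2 : ℝ) := by
    have h6 : (1 : ℝ) ≤ (M : ℝ) ^ (1 / 4 : ℝ) := Real.one_le_rpow hM1 (by norm_num)
    have h7 : 2 * (H : ℝ) + 1 ≤ 3 * (M : ℝ) ^ (1 / 4 : ℝ) := by linarith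
    calc (2 * (H : ℝ) + 1) ^ 2 ≤ (3 * (M : ℝ) ^ (1 / 4 : ℝ)) ^ 2 := by gcongr
      _ = 9 * (M : ℝ) ^ (1 / 2 : ℝ) := by
          rw [mul_pow, ← Real.rpow_natCast ((M : ℝ) ^ (1 / 4 : ℝ)), ← Real.rpow_mul hM0.le]
          norm_num
  have h8 : 9 * (2 : ℝ) ^ D ≤ (M : ℝ) ^ (1 / 2 : ℝ) := by
    rw [← Real.sqrt_eq_rpow]
    exact Real.le_sqrt_of_sq_le hMr
  have h9 : (M : ℝ) ^ (1 / 2 : ℝ) * (M : ℝ) ^ (1 / 2 : ℝ) = M := by
    rw [← Real.rpow_add hM0]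
    norm_num
  have h10 : 2 ^ D * ((2 * (H : ℝ) + 1) * (2 * H + 1)) ≤ M := by
    calc 2 ^ D * ((2 * (H : ℝ) + 1) * (2 * H + 1)) = 2 ^ D * (2 * (H : ℝ) + 1) ^ 2 := by ring
      _ ≤ 2 ^ D * (9 * (M : ℝ) ^ (1 / 2 : ℝ)) := by gcongr
      _ = (9 * 2 ^ D) * (M : ℝ) ^ (1 / 2 : ℝ) := by ring
      _ ≤ (M : ℝ) ^ (1 / 2 : ℝ) * (M : ℝ) ^ (1 / 2 : ℝ) := by gcongr
      _ = M := h9
  have h2D : (1 : ℝ) ≤ 2 ^ D := one_le_pow₀ (by norm_num)
  have hqM : (q : ℝ) / M ≤ 1 := by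
    rw [div_le_one hM0]
    refine hqH.trans ?_
    nlinarith
  have h11 := pow_bd D (q / M) ht0 hqM
  have h12 : (2 ^ D - 1) * ((q : ℝ) / M) ≤ 1 / (2 * H + 1) := by
    rw [mul_div_assoc', div_le_div_iff₀ hM0 (by positivity)]
    calc (2 ^ D - 1) * (q : ℝ) * (2 * H + 1) ≤ 2 ^ D * (2 * H + 1) * (2 * H + 1) := by
          gcongr
          linarith
      _ = 2 ^ D * ((2 * (H : ℝ) + 1) * (2 * H + 1)) := by ring
      _ ≤ 1 * M := by rw [one_mul]; exact h10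
  linarith

end

end Pool.Agent.Run7.h712.TS
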