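import Pool.Agent.N647.TS.Law
import Pool.Agent.N666.TM.Mean

/-!
# Sums over the primes of local functions at the members of a well distributed family of integer vectors

The engine `Pool.Agent.N647.TS.lawW` (helper647) for functions of the reductions modulo the primes which may be as large as `√p`, with
bounded second moments, for vectors of integers.
-/

set_option autoImplicit false

namespace Pool.Agent.Run7.h712.TS

open Finset Filter
open Pool.Agent.TH894.NE (mean box mem_box Per mean_mono mean_const mean_mul mean_add card_box)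
open Pool.Agent.N647.TS (WellN lawW)
open Pool.Agent.Y722.HS (EM red PR mem_PR EM_mono EM_const p_pos)
open Pool.Agent.Y722.LS (EM_mul EM_add EM_nonneg)
open Pool.Agent.N666.TM (Well)

section
variable {ι : Type} [Fintype ι] [DecidableEq ι]

/-- the box and the vectors of residue classes -/
lemma mean_EM {d : ℕ} (e : ι ≃ Fin d) (p : ℕ) [NeZero p] (g : (ι → ZMod p) → ℝ) :
    mean d p (fun v => g (fun i => (v (e i) : ZMod p))) = EM p g := by
  unfold mean EM
  have hd : Fintype.card ι = d := by rw [Fintype.card_congr e, Fintype.card_fin]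
  rw [hd, one_div, inv_mul_eq_div]
  congr 1
  refine sum_bij' (fun v _ => fun i => (v (e i) : ZMod p)) (fun c _ => fun j => (c (e.symm j)).val) ?_ ?_ ?_ ?_ ?_
  · intro v _
    exact mem_univ _
  · intro c _
    rw [mem_box]
    intro j
    exact ZMod.val_lt _
  · intro v hv
    rw [mem_box] at hv
    funext j
    simp [ZMod.val_natCast, Nat.mod_eq_of_lt (hv j)]
  · intro c _
    funext i
    simp
  · intro v _
    rfl

/-- natural numbers with the same residues modulo the integers up to `2 H + 1` -/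
def nat {d : ℕ} (e : ι ≃ Fin d) (H : ℕ) (x : ℕ → ι → ℤ) (n : ℕ) (j : Fin d) : ℕ :=
  (x n (e.symm j) % ((2 * H + 1).factorial : ℤ)).toNat

omit [Fintype ι] [DecidableEq ι] in
lemma nat_cast {d : ℕ} (e : ι ≃ Fin d) (H : ℕ) (x : ℕ → ι → ℤ) (n : ℕ) (j : Fin d) (q : ℕ) (hq1 : 1 ≤ q)
    (hq : q ≤ 2 * H + 1) : ((nat e H x n j : ℕ) : ZMod q) = ((x n (e.symm j) : ℤ) : ZMod q) := by
  have h1 : (0 : ℤ) < ((2 * H + 1).factorial : ℤ) := by exact_mod_cast Nat.factorial_pos _
  have h2 : ((nat e H x n j : ℕ) : ℤ) = x n (e.symm j) % ((2 * H + 1).factorial : ℤ) :=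
    Int.toNat_of_nonneg (Int.emod_nonneg _ h1.ne')
  have h3 : (((nat e H x n j : ℕ) : ℤ) : ZMod q) = ((x n (e.symm j) : ℤ) : ZMod q) := by
    rw [h2, ZMod.intCast_eq_intCast_iff]
    have h4 : (q : ℤ) ∣ ((2 * H + 1).factorial : ℤ) := by exact_mod_cast Nat.dvd_factorial hq1 hq
    exact (Int.mod_modEq _ _).of_dvd h4
  rw [← h3, Int.cast_natCast]

lemma wellN_nat {s : Finset ℕ} {x : ℕ → ι → ℤ} {H d : ℕ} (e : ι ≃ Fin d) (hw : Well s x H) : WellN s (nat e H x) H := by
  refine ⟨hw.pos, fun q hq1 hq r hr => ?_⟩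
  have hd : Fintype.card ι = d := by rw [Fintype.card_congr e, Fintype.card_fin]
  have h := hw.dist q hq1 hq (fun i => ((r (e i) : ℕ) : ZMod q))
  rw [hd] at h
  have he : (s.filter fun n => (fun j => nat e H x n j % q) = r) =
      s.filter fun n => red q (x n) = fun i => ((r (e i) : ℕ) : ZMod q) := by
    apply Finset.filter_congr
    intro n hn
    rw [mem_box] at hr
    constructor
    · intro h1
      funext i
      have h2 := nat_cast e H x n (e i) q hq1 hq
      rw [e.symm_apply_apply] at h2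
      show ((x n i : ℤ) : ZMod q) = _
      rw [← h2, ZMod.natCast_eq_natCast_iff', ← congrFun h1 (e i), Nat.mod_mod]
    · intro h1
      funext j
      have h2 := nat_cast e H x n j q hq1 hq
      have h3 : ((x n (e.symm j) : ℤ) : ZMod q) = ((r (e (e.symm j)) : ℕ) : ZMod q) := congrFun h1 (e.symm j)
      rw [e.apply_symm_apply] at h3
      rw [← h2, ZMod.natCast_eq_natCast_iff', Nat.mod_eq_of_lt (hr j)] at h3
      exact h3
  rw [he]
  exact h

lemma ev_eng (C δ : ℝ) (hC : 0 ≤ C) (hδ : 0 < δ) : ∀ᶠ T : ℕ in atTop,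
    ((C + 1) * Real.sqrt T) * ((T : ℝ) ^ (δ / 4) + 2) ≤ (T : ℝ) ^ (1 / 2 + δ) := by
  have h1 : Tendsto (fun x : ℝ => x ^ (δ / 4)) atTop atTop := tendsto_rpow_atTop (by positivity)
  have h4 : ∀ᶠ x : ℝ in atTop, ((C + 1) * Real.sqrt x) * (x ^ (δ / 4) + 2) ≤ x ^ (1 / 2 + δ) := by
    filter_upwards [h1.eventually (eventually_ge_atTop (C + 3)), eventually_ge_atTop 1] with x hx1 hx3
    have hx0 : 0 < x := by linarith
    obtain ⟨u, hu⟩ : ∃ u, u = x ^ (δ / 4) := ⟨_, rfl⟩
    have e1 : x ^ (1 / 2 + δ) = Real.sqrt x * (u * (u * (u * u))) := by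
      rw [hu, Real.sqrt_eq_rpow, ← Real.rpow_add hx0, ← Real.rpow_add hx0, ← Real.rpow_add hx0, ← Real.rpow_add hx0]
      congr 1
      ring
    rw [e1, ← hu]
    rw [← hu] at hx1
    have h2 : (C + 1) * (u + 2) ≤ u * (u * u) := by
      apply mul_le_mul (by linarith) _ (by linarith) (by linarith)
      nlinarith
    calc ((C + 1) * Real.sqrt x) * (u + 2) = Real.sqrt x * ((C + 1) * (u + 2)) := by ring
      _ ≤ Real.sqrt x * (u * (u * u)) := mul_le_mul_of_nonneg_left h2 (Real.sqrt_nonneg _)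
      _ ≤ Real.sqrt x * (u * (u * (u * u))) := by
          apply mul_le_mul_of_nonneg_left _ (Real.sqrt_nonneg _)
          apply mul_le_mul_of_nonneg_left _ (by linarith)
          nlinarith [mul_pos (by linarith : (0 : ℝ) < u) (by linarith : (0 : ℝ) < u)]
  exact tendsto_natCast_atTop_atTop.eventually h4

lemma sum_inv_sqrt (T : ℕ) : ∑ p ∈ PR T, 1 / Real.sqrt p ≤ 2 * Real.sqrt T := by
  have key : ∑ k ∈ Icc 1 T, 1 / Real.sqrt k ≤ 2 * Real.sqrt T := by
    induction T with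
    | zero => simp
    | succ n ih =>
      rw [sum_Icc_succ_top (by omega)]
      have h1 : 1 / Real.sqrt ((n + 1 : ℕ) : ℝ) ≤ 2 * (Real.sqrt ((n + 1 : ℕ) : ℝ) - Real.sqrt n) := by
        have hn : (0 : ℝ) ≤ n := Nat.cast_nonneg n
        have h2 : 0 < Real.sqrt ((n + 1 : ℕ) : ℝ) := Real.sqrt_pos.2 (by positivity)
        have h3 : Real.sqrt ((n + 1 : ℕ) : ℝ) ^ 2 = n + 1 := by
          rw [Real.sq_sqrt (by positivity)]
          push_cast
          ring
        have h4 : Real.sqrt (n : ℝ) ^ 2 = n := Real.sq_sqrt hn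
        rw [div_le_iff₀ h2]
        nlinarith [sq_nonneg (Real.sqrt ((n + 1 : ℕ) : ℝ) - Real.sqrt n)]
      linarith
  refine le_trans (sum_le_sum_of_subset_of_nonneg (fun p hp => ?_) (fun _ _ _ => by positivity)) key
  rw [mem_PR] at hp
  rw [mem_Icc]
  exact ⟨hp.2.one_lt.le, hp.1⟩

lemma card_PR (T : ℕ) : ((PR T).card : ℝ) ≤ T := by
  have h1 : PR T ⊆ Icc 1 T := fun p hp => by
    rw [mem_PR] at hp
    rw [mem_Icc]
    exact ⟨hp.2.one_lt.le, hp.1⟩
  have h2 := card_le_card h1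
  rw [Nat.card_Icc] at h2
  exact_mod_cast (by omega : (PR T).card ≤ T)

open Classical in
/-- **The engine.** -/
theorem eng (δ : ℝ) (hδ : 0 < δ) (A B : ℕ) {Θ : Type} (Q : Finset Θ) (Φ : Θ → ∀ p : ℕ, (ι → ZMod p) → ℝ) (C : ℝ)
    (hC : 0 ≤ C) (h1 : ∀ θ ∈ Q, ∀ (p : ℕ) [Fact p.Prime], ∀ u, |Φ θ p u| ≤ Real.sqrt p)
    (h2 : ∀ θ ∈ Q, ∀ (p : ℕ) [Fact p.Prime], EM p (fun u => Φ θ p u ^ 2) ≤ C)
    (h3 : ∀ θ ∈ Q, ∀ (p : ℕ) [Fact p.Prime], |EM p (fun u => Φ θ p u)| ≤ C / Real.sqrt p) :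
    ∃ Me x₀ : ℕ, 1 ≤ Me ∧ ∀ (S : Finset ℕ) (x : ℕ → ι → ℤ) (H y : ℕ), Well S x H → x₀ ≤ y →
    ∀ W : ℕ → Finset (ℕ → ℝ), (∀ T, x₀ ≤ T → (W T).card ≤ T ^ B) → (∀ T, ∀ w ∈ W T, ∀ p, |w p| ≤ 1) →
    ((S.filter fun n => ¬ ∀ T : ℕ, y ≤ T → T ^ Me ≤ 2 * H + 1 → ∀ w ∈ W T, ∀ θ ∈ Q,
      |∑ p ∈ PR T, w p * Φ θ p (red p (x n))| ≤ (T : ℝ) ^ (1 / 2 + δ)).card : ℝ) ≤ 1 / (y : ℝ) ^ A * S.card := by
  obtain ⟨M', x₀, hlaw⟩ := lawW (Fintype.card ι) (δ / 4) A (B + 1) (by positivity)
  obtain ⟨x₁, hx₁⟩ := eventually_atTop.1 (ev_eng C δ hC hδ)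
  refine ⟨M' + 1, x₀ + x₁ + Q.card + 3, by omega, fun S x H y hw hy W hW hW1 => ?_⟩
  have hyr : (1 : ℝ) ≤ y := by exact_mod_cast (by omega : 1 ≤ y)
  have hy0 : (0 : ℝ) < y := by linarith
  have e1 : 1 / (y : ℝ) ^ A = (y : ℝ) ^ (-(A : ℝ)) := by
    rw [Real.rpow_neg hy0.le, Real.rpow_natCast, one_div]
  rw [e1]
  obtain ⟨e, -⟩ : ∃ _ : ι ≃ Fin (Fintype.card ι), True := ⟨Fintype.equivFin ι, trivial⟩
  -- the normalisation
  obtain ⟨L, hL⟩ : ∃ L : ℕ → ℝ, L = fun T : ℕ => (C + 1) * Real.sqrt T := ⟨_, rfl⟩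
  have hLpos : ∀ T : ℕ, 1 ≤ T → 0 < L T := by
    intro T hT
    rw [hL]
    have h3 : 0 < Real.sqrt T := Real.sqrt_pos.2 (by exact_mod_cast (by omega : 0 < T))
    positivity
  obtain ⟨Λ, hΛ⟩ : ∃ Λ : ℕ → Finset (ℕ × (ℕ → ℝ) × Θ), Λ = fun T => if T < x₀ + x₁ + Q.card + 3 then ∅ else
    ({T} : Finset ℕ) ×ˢ (W T ×ˢ Q) := ⟨_, rfl⟩
  have hmem : ∀ T l, l ∈ Λ T → x₀ + x₁ + Q.card + 3 ≤ T ∧ l.1 = T ∧ l.2.1 ∈ W T ∧ l.2.2 ∈ Q := by
    intro T l hl
    rw [hΛ] at hl
    beta_reduce at hl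
    split_ifs at hl with hx
    · exact absurd hl (notMem_empty _)
    · rw [mem_product, mem_product, mem_singleton] at hl
      exact ⟨by omega, hl.1, hl.2.1, hl.2.2⟩
  refine hlaw S (nat e H x) H y (wellN_nat e hw) (by omega) (ℕ × (ℕ → ℝ) × Θ) Λ ?_ ℕ (fun T _ => PR T) (fun _ p => p)
    ?_ ?_ ?_ (fun l p v => l.2.1 p * Φ l.2.2 p (fun i => (v (e i) : ZMod p)) / L l.1) ?_ ?_ _ (filter_subset _ _) ?_
  · intro T hT
    rw [hΛ]
    beta_reduce
    split_ifs with hxq
    · rw [card_empty, Nat.cast_zero]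
      positivity
    · rw [card_product, card_product, card_singleton, one_mul]
      have h2 : (W T).card * Q.card ≤ T ^ B * T := Nat.mul_le_mul (hW T (by omega)) (by omega)
      have h3 : ((W T).card * Q.card : ℕ) ≤ T ^ (B + 1) := by rw [pow_succ]; exact h2
      have h4 : ((T : ℝ)) ^ ((B : ℝ) + 1) = ((T ^ (B + 1) : ℕ) : ℝ) := by
        rw [show ((B : ℝ) + 1) = ((B + 1 : ℕ) : ℝ) by push_cast; ring, Real.rpow_natCast]
        push_cast
        ring
      rw [h4]
      exact_mod_cast h3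
  · intro T l _
    exact_mod_cast card_PR T
  · intro T l _ p hp
    rw [mem_PR] at hp
    exact ⟨hp.2.one_lt.le, hp.1⟩
  · intro T l _ p hp p' hp' hne
    rw [mem_PR] at hp hp'
    exact (Nat.coprime_primes hp.2 hp'.2).2 hne
  · intro T l _ p _ v
    show _ = l.2.1 p * Φ l.2.2 p (fun i => ((v (e i) % p : ℕ) : ZMod p)) / L l.1
    simp only [ZMod.natCast_mod]
  · intro T l hl p hp v
    obtain ⟨hT, hlx, hlw, hlQ⟩ := hmem T l hl
    rw [mem_PR] at hp
    haveI := Fact.mk hp.2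
    rw [abs_div, abs_of_pos (hLpos _ (by omega)), div_le_one (hLpos _ (by omega)), abs_mul]
    have h4 := h1 _ hlQ p (fun i => (v (e i) : ZMod p))
    have h5 : Real.sqrt p ≤ Real.sqrt l.1 := Real.sqrt_le_sqrt (by exact_mod_cast (by omega : p ≤ l.1))
    calc |l.2.1 p| * |Φ l.2.2 p (fun i => (v (e i) : ZMod p))| ≤ 1 * Real.sqrt p :=
          mul_le_mul (hW1 T _ hlw p) h4 (abs_nonneg _) zero_le_one
      _ ≤ L l.1 := by
          rw [hL, one_mul]
          beta_reduce
          have : 0 ≤ C * Real.sqrt l.1 := by positivity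
          linarith
  · intro k hk
    rw [mem_filter] at hk
    have h4 := hk.2
    push Not at h4
    obtain ⟨T, hyT, hTH, w, hwW, θ, hθ, hlt⟩ := h4
    have hT1 : 1 ≤ T := by omega
    have hTH' : T ^ M' ≤ 2 * H + 1 := le_trans (Nat.pow_le_pow_right hT1 (by omega)) hTH
    have hTH1 : T ≤ 2 * H + 1 := le_trans (Nat.le_self_pow (by omega) T) hTH
    refine ⟨T, hyT, hTH', (T, w, θ), ?_, ?_⟩
    · rw [hΛ]
      beta_reduce
      rw [if_neg (by omega), mem_product, mem_product, mem_singleton]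
      exact ⟨rfl, hwW, hθ⟩
    · have hLT := hLpos T hT1
      have hTr : (0 : ℝ) < T := by exact_mod_cast (by omega : 0 < T)
      show Real.sqrt (max 1 (∑ p ∈ PR T, mean (Fintype.card ι) p (fun v => (w p * Φ θ p (fun i => (v (e i) : ZMod p)) / L T) ^ 2))) *
        (T : ℝ) ^ (δ / 4) < |∑ p ∈ PR T, w p * Φ θ p (fun i => ((nat e H x k (e i) : ℕ) : ZMod p)) / L T -
          ∑ p ∈ PR T, mean (Fintype.card ι) p (fun v => w p * Φ θ p (fun i => (v (e i) : ZMod p)) / L T)|
      -- the variance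
      have hvar : max 1 (∑ p ∈ PR T, mean (Fintype.card ι) p (fun v => (w p * Φ θ p (fun i => (v (e i) : ZMod p)) / L T) ^ 2)) = 1 := by
        apply max_eq_left
        have h5 : ∀ p ∈ PR T, mean (Fintype.card ι) p (fun v => (w p * Φ θ p (fun i => (v (e i) : ZMod p)) / L T) ^ 2) ≤ 1 / T := by
          intro p hp
          rw [mem_PR] at hp
          haveI := Fact.mk hp.2
          rw [mean_EM e p (fun u => (w p * Φ θ p u / L T) ^ 2)]
          have h6 : EM p (fun u => (w p * Φ θ p u / L T) ^ 2) ≤ EM p (fun u => (1 / L T ^ 2) * Φ θ p u ^ 2) := by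
            apply EM_mono
            intro u
            have h7 : w p ^ 2 ≤ 1 := by
              rw [← sq_abs]
              exact pow_le_one₀ (abs_nonneg _) (hW1 T w hwW p)
            calc (w p * Φ θ p u / L T) ^ 2 = w p ^ 2 * ((1 / L T ^ 2) * Φ θ p u ^ 2) := by ring
              _ ≤ 1 * ((1 / L T ^ 2) * Φ θ p u ^ 2) := mul_le_mul_of_nonneg_right h7 (by positivity)
              _ = _ := one_mul _
          refine h6.trans ?_
          rw [EM_mul]
          have h8 := h2 θ hθ p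
          have h9 : L T ^ 2 = (C + 1) ^ 2 * T := by
            rw [hL]
            beta_reduce
            rw [mul_pow, Real.sq_sqrt hTr.le]
          calc 1 / L T ^ 2 * EM p (fun u => Φ θ p u ^ 2) ≤ 1 / L T ^ 2 * C := mul_le_mul_of_nonneg_left h8 (by positivity)
            _ = C / ((C + 1) ^ 2 * T) := by rw [h9]; ring
            _ ≤ 1 / T := by
                rw [div_le_div_iff₀ (by positivity) hTr]
                nlinarith [mul_nonneg hC hTr.le, mul_nonneg (mul_nonneg hC hC) hTr.le]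
        refine (sum_le_sum h5).trans ?_
        rw [sum_const, nsmul_eq_mul]
        calc ((PR T).card : ℝ) * (1 / T) ≤ T * (1 / T) := mul_le_mul_of_nonneg_right (card_PR T) (by positivity)
          _ = 1 := by field_simp
      rw [hvar, Real.sqrt_one, one_mul]
      have hcast : ∀ p ∈ PR T, (fun i => ((nat e H x k (e i) : ℕ) : ZMod p)) = red p (x k) := by
        intro p hp
        rw [mem_PR] at hp
        funext i
        rw [nat_cast e H x k (e i) p hp.2.one_lt.le (by omega), e.symm_apply_apply]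
        rfl
      have hs1 : ∑ p ∈ PR T, w p * Φ θ p (fun i => ((nat e H x k (e i) : ℕ) : ZMod p)) / L T =
          (∑ p ∈ PR T, w p * Φ θ p (red p (x k))) / L T := by
        rw [sum_div]
        exact sum_congr rfl fun p hp => by rw [hcast p hp]
      have hs2 : |∑ p ∈ PR T, mean (Fintype.card ι) p (fun v => w p * Φ θ p (fun i => (v (e i) : ZMod p)) / L T)| ≤ 2 := by
        have h5 : ∀ p ∈ PR T, |mean (Fintype.card ι) p (fun v => w p * Φ θ p (fun i => (v (e i) : ZMod p)) / L T)| ≤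
            (C / L T) * (1 / Real.sqrt p) := by
          intro p hp
          rw [mem_PR] at hp
          haveI := Fact.mk hp.2
          rw [mean_EM e p (fun u => w p * Φ θ p u / L T)]
          have h6 : (fun u : ι → ZMod p => w p * Φ θ p u / L T) = fun u => (w p / L T) * Φ θ p u := by
            funext u
            ring
          rw [h6, EM_mul, abs_mul, abs_div, abs_of_pos hLT]
          calc |w p| / L T * |EM p (fun u => Φ θ p u)| ≤ 1 / L T * (C / Real.sqrt p) := by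
                apply mul_le_mul _ (h3 θ hθ p) (abs_nonneg _) (by positivity)
                exact div_le_div_of_nonneg_right (hW1 T w hwW p) hLT.le
            _ = _ := by ring
        refine (abs_sum_le_sum_abs _ _).trans ((sum_le_sum h5).trans ?_)
        rw [← mul_sum]
        refine (mul_le_mul_of_nonneg_left (sum_inv_sqrt T) (by positivity)).trans ?_
        rw [div_mul_eq_mul_div, div_le_iff₀ hLT, hL]
        beta_reduce
        have : 0 ≤ Real.sqrt T := Real.sqrt_nonneg _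
        nlinarith
      rw [hs1]
      have h9 := hx₁ T (by omega)
      have h10 : (L T) * ((T : ℝ) ^ (δ / 4) + 2) ≤ (T : ℝ) ^ (1 / 2 + δ) := by
        rw [hL]
        exact h9
      have h11 : ((T : ℝ) ^ (δ / 4) + 2) < |(∑ p ∈ PR T, w p * Φ θ p (red p (x k))) / L T| := by
        rw [abs_div, abs_of_pos hLT, lt_div_iff₀ hLT]
        linarith
      have h12 := abs_sub_abs_le_abs_sub ((∑ p ∈ PR T, w p * Φ θ p (red p (x k))) / L T)
        (∑ p ∈ PR T, mean (Fintype.card ι) p (fun v => w p * Φ θ p (fun i => (v (e i) : ZMod p)) / L T))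
      linarith

end

end Pool.Agent.Run7.h712.TS
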