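import Pool.Agent.Run7.h712.TS.Eng
import Pool.Agent.N534.LF.Maj
import Pool.Agent.Y722.LS.Zeta

/-!
# Truncated local functions, twists and partial summation

`abel_block`, `dyadic` and `cpow_eq` are copied from `Pool.Agent.N647.NG.Ana` (helper647).
-/

set_option autoImplicit false

namespace Pool.Agent.Run7.h712.TS

open Finset Filter
open Pool.Agent.Y722.HS (EM red PR mem_PR EM_mono EM_const p_pos SS SS_nonneg sum_le_SS)
open Pool.Agent.Y722.LS (EM_mul EM_add EM_nonneg Fam bb)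
open Pool.Agent.N534.LF (Loc)

/-- partial summation on a block -/
lemma abel_block (c : ℕ → ℂ) (f : ℕ → ℝ) (U : ℕ) (M : ℝ) (V : ℕ) (hUV : U ≤ V) (hf : ∀ n, U ≤ n → n < V → f (n + 1) ≤ f n)
    (hf0 : 0 ≤ f V) (hM : ∀ n, U ≤ n → n ≤ V → ‖∑ k ∈ Ioc U n, c k‖ ≤ M) : ‖∑ k ∈ Ioc U V, c k * (f k : ℂ)‖ ≤ M * f U := by
  have key : ∀ W : ℕ, U ≤ W → W ≤ V → ‖∑ k ∈ Ioc U W, c k * (f k : ℂ) - (f W : ℂ) * ∑ k ∈ Ioc U W, c k‖ ≤ M * (f U - f W) := by
    intro W hUW
    induction W, hUW using Nat.le_induction with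
    | base =>
      intro _
      simp
    | succ n hn ih =>
      intro hnV
      have h1 := ih (by omega)
      have h2 := hM n hn (by omega)
      have h3 := hf n hn (by omega)
      have e1 : ∑ k ∈ Ioc U (n + 1), c k * (f k : ℂ) = ∑ k ∈ Ioc U n, c k * (f k : ℂ) + c (n + 1) * (f (n + 1) : ℂ) :=
        sum_Ioc_succ_top (by omega) _
      have e2 : ∑ k ∈ Ioc U (n + 1), c k = ∑ k ∈ Ioc U n, c k + c (n + 1) := sum_Ioc_succ_top (by omega) _
      rw [e1, e2]
      have e3 : ∑ k ∈ Ioc U n, c k * (f k : ℂ) + c (n + 1) * (f (n + 1) : ℂ) - (f (n + 1) : ℂ) * (∑ k ∈ Ioc U n, c k + c (n + 1)) =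
          (∑ k ∈ Ioc U n, c k * (f k : ℂ) - (f n : ℂ) * ∑ k ∈ Ioc U n, c k) + ((f n - f (n + 1) : ℝ) : ℂ) * ∑ k ∈ Ioc U n, c k := by
        push_cast
        ring
      rw [e3]
      refine (norm_add_le _ _).trans ?_
      rw [norm_mul, Complex.norm_real, Real.norm_of_nonneg (by linarith)]
      have h4 : (f n - f (n + 1)) * ‖∑ k ∈ Ioc U n, c k‖ ≤ (f n - f (n + 1)) * M := mul_le_mul_of_nonneg_left h2 (by linarith)
      linarith
  have h1 := key V hUV le_rfl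
  have h2 := hM V hUV le_rfl
  have e1 : ∑ k ∈ Ioc U V, c k * (f k : ℂ) = (∑ k ∈ Ioc U V, c k * (f k : ℂ) - (f V : ℂ) * ∑ k ∈ Ioc U V, c k) + (f V : ℂ) * ∑ k ∈ Ioc U V, c k := by ring
  rw [e1]
  refine (norm_add_le _ _).trans ?_
  rw [norm_mul, Complex.norm_real, Real.norm_of_nonneg hf0]
  have h3 : f V * ‖∑ k ∈ Ioc U V, c k‖ ≤ f V * M := mul_le_mul_of_nonneg_left h2 hf0
  linarith

/-- from the sums to the Dirichlet polynomials -/
lemma dyadic (a ε : ℝ) (ha : 0 ≤ a) (hε : 0 < ε) (c : ℕ → ℂ) (y X : ℕ) (hy : 1 ≤ y)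
    (hS : ∀ n, y ≤ n → n ≤ X → ‖∑ k ∈ Ioc 0 n, c k‖ ≤ (n : ℝ) ^ a) (σ : ℝ) (hσ : a + ε ≤ σ) :
    ∀ T₁ T₂ : ℕ, y ≤ T₁ → T₁ ≤ T₂ → T₂ ≤ X →
      ‖∑ k ∈ Ioc T₁ T₂, c k * (((k : ℝ) ^ (-σ) : ℝ) : ℂ)‖ ≤ (2 * 2 ^ a) / (1 - 2 ^ (-ε)) * (T₁ : ℝ) ^ (a - σ) := by
  have h2ε : (2 : ℝ) ^ (-ε) < 1 := Real.rpow_lt_one_of_one_lt_of_neg one_lt_two (by linarith)
  have h2a : 0 < (2 : ℝ) ^ a := by positivity
  obtain ⟨L, hL⟩ : ∃ L : ℝ, L = (2 * 2 ^ a) / (1 - 2 ^ (-ε)) := ⟨_, rfl⟩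
  have hL0 : 0 ≤ L := by
    rw [hL]
    apply div_nonneg (by positivity)
    linarith
  have hLeq : 2 * 2 ^ a + L * 2 ^ (-ε) = L := by
    rw [hL]
    have : 1 - (2 : ℝ) ^ (-ε) ≠ 0 := by linarith
    field_simp
    ring
  have hblock : ∀ T₁ T₂ : ℕ, y ≤ T₁ → T₁ ≤ T₂ → T₂ ≤ X → T₂ ≤ 2 * T₁ →
      ‖∑ k ∈ Ioc T₁ T₂, c k * (((k : ℝ) ^ (-σ) : ℝ) : ℂ)‖ ≤ (2 * 2 ^ a) * (T₁ : ℝ) ^ (a - σ) := by
    intro T₁ T₂ h1 h2 h3 h4
    have hT1 : (0 : ℝ) < T₁ := by exact_mod_cast (by omega : 0 < T₁)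
    have h5 := abel_block c (fun k => (k : ℝ) ^ (-σ)) T₁ (2 * (2 ^ a * (T₁ : ℝ) ^ a)) T₂ h2 (fun n hn _ => ?_) (by positivity) (fun n hn1 hn2 => ?_)
    · refine h5.trans (le_of_eq ?_)
      have e1 : (T₁ : ℝ) ^ (a - σ) = (T₁ : ℝ) ^ a * (T₁ : ℝ) ^ (-σ) := by
        rw [← Real.rpow_add hT1]
        rfl
      rw [e1]
      ring
    · have hn0 : (0 : ℝ) < n := by exact_mod_cast (by omega : 0 < n)
      apply Real.rpow_le_rpow_of_nonpos hn0 _ (by linarith)
      push_cast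
      linarith
    · have e1 : ∑ k ∈ Ioc T₁ n, c k = ∑ k ∈ Ioc 0 n, c k - ∑ k ∈ Ioc 0 T₁, c k := by
        rw [← sum_Ioc_consecutive c (Nat.zero_le T₁) hn1]
        ring
      rw [e1]
      refine (norm_sub_le _ _).trans ?_
      have h6 := hS n (by omega) (by omega)
      have h7 := hS T₁ h1 (by omega)
      have h8 : (n : ℝ) ^ a ≤ 2 ^ a * (T₁ : ℝ) ^ a := by
        rw [← Real.mul_rpow (by norm_num) hT1.le]
        apply Real.rpow_le_rpow (Nat.cast_nonneg _) _ ha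
        exact_mod_cast (by omega : n ≤ 2 * T₁)
      have h9 : (T₁ : ℝ) ^ a ≤ 2 ^ a * (T₁ : ℝ) ^ a :=
        le_mul_of_one_le_left (by positivity) (Real.one_le_rpow (by norm_num) ha)
      linarith
  rw [← hL]
  -- induction on the length
  have key : ∀ d : ℕ, ∀ T₁ T₂ : ℕ, T₂ - T₁ ≤ d → y ≤ T₁ → T₁ ≤ T₂ → T₂ ≤ X →
      ‖∑ k ∈ Ioc T₁ T₂, c k * (((k : ℝ) ^ (-σ) : ℝ) : ℂ)‖ ≤ L * (T₁ : ℝ) ^ (a - σ) := by
    intro d
    induction d with
    | zero =>
      intro T₁ T₂ hd h1 h2 h3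
      have : T₁ = T₂ := by omega
      subst this
      rw [Ioc_self, sum_empty, norm_zero]
      positivity
    | succ d ih =>
      intro T₁ T₂ hd h1 h2 h3
      have hT1 : (0 : ℝ) < T₁ := by exact_mod_cast (by omega : 0 < T₁)
      by_cases h4 : T₂ ≤ 2 * T₁
      · refine (hblock T₁ T₂ h1 h2 h3 h4).trans ?_
        apply mul_le_mul_of_nonneg_right _ (by positivity)
        have : 0 ≤ L * 2 ^ (-ε) := by positivity
        linarith
      · push Not at h4
        rw [← sum_Ioc_consecutive _ (by omega : T₁ ≤ 2 * T₁) h4.le]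
        have h5 := hblock T₁ (2 * T₁) h1 (by omega) (by omega) le_rfl
        have h6 := ih (2 * T₁) T₂ (by omega) (by omega) h4.le h3
        have h7 : (((2 * T₁ : ℕ) : ℝ)) ^ (a - σ) ≤ 2 ^ (-ε) * (T₁ : ℝ) ^ (a - σ) := by
          push_cast
          rw [Real.mul_rpow (by norm_num) hT1.le]
          apply mul_le_mul_of_nonneg_right _ (by positivity)
          apply Real.rpow_le_rpow_of_exponent_le (by norm_num)
          linarith
        refine (norm_add_le _ _).trans ?_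
        have h8 : L * ((2 * T₁ : ℕ) : ℝ) ^ (a - σ) ≤ L * (2 ^ (-ε) * (T₁ : ℝ) ^ (a - σ)) := mul_le_mul_of_nonneg_left h7 hL0
        calc _ ≤ (2 * 2 ^ a) * (T₁ : ℝ) ^ (a - σ) + L * (2 ^ (-ε) * (T₁ : ℝ) ^ (a - σ)) := by linarith
          _ = (2 * 2 ^ a + L * 2 ^ (-ε)) * (T₁ : ℝ) ^ (a - σ) := by ring
          _ = L * (T₁ : ℝ) ^ (a - σ) := by rw [hLeq]
  intro T₁ T₂ h1 h2 h3
  exact key (T₂ - T₁) T₁ T₂ le_rfl h1 h2 h3

lemma cpow_eq (q : ℕ) (hq : 1 ≤ q) (z : ℂ) : (q : ℂ) ^ (-z) =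
    ((Real.cos (z.im * Real.log q) : ℂ) - (Real.sin (z.im * Real.log q) : ℂ) * Complex.I) * (((q : ℝ) ^ (-z.re) : ℝ) : ℂ) := by
  have hq0 : (q : ℂ) ≠ 0 := by exact_mod_cast (by omega : q ≠ 0)
  have hq1 : (0 : ℝ) < q := by exact_mod_cast hq
  rw [Complex.cpow_def_of_ne_zero hq0]
  have h1 : Complex.log (q : ℂ) = ((Real.log q : ℝ) : ℂ) := by
    rw [Complex.ofReal_log (Nat.cast_nonneg q)]
    simp
  rw [h1]
  have h2 : ((Real.log q : ℝ) : ℂ) * -z = ((-(z.re) * Real.log q : ℝ) : ℂ) + ((-(z.im * Real.log q) : ℝ) : ℂ) * Complex.I := by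
    conv_lhs => rw [← Complex.re_add_im z]
    push_cast
    ring
  rw [h2, Complex.exp_add, ← Complex.ofReal_exp, Complex.exp_mul_I, ← Complex.ofReal_cos, ← Complex.ofReal_sin, Real.cos_neg, Real.sin_neg,
    Real.rpow_def_of_pos hq1]
  push_cast
  rw [mul_comm (-(z.re : ℂ)) _]
  ring

/-- the weights -/
noncomputable def wt (T : ℕ) (z : ℤ × Bool) (p : ℕ) : ℝ :=
  if z.2 then Real.cos ((z.1 : ℝ) / T ^ 2 * Real.log p) else Real.sin ((z.1 : ℝ) / T ^ 2 * Real.log p)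

open Classical in
/-- the set of the weights -/
noncomputable def Wt (T : ℕ) : Finset (ℕ → ℝ) := (Icc (-((T : ℤ) ^ 3)) ((T : ℤ) ^ 3) ×ˢ (univ : Finset Bool)).image (wt T)

lemma card_Wt (T : ℕ) (hT : 2 ≤ T) : (Wt T).card ≤ T ^ 6 := by
  classical
  unfold Wt
  refine card_image_le.trans ?_
  rw [card_product, Int.card_Icc, card_univ, Fintype.card_bool]
  have : ((T : ℤ) ^ 3 + 1 - -((T : ℤ) ^ 3)) = ((2 * T ^ 3 + 1 : ℕ) : ℤ) := by
    push_cast
    ring
  rw [this, Int.toNat_natCast]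
  have h4 : 8 ≤ T ^ 3 := le_trans (by norm_num) (Nat.pow_le_pow_left hT 3)
  calc (2 * T ^ 3 + 1) * 2 ≤ 8 * T ^ 3 := by omega
    _ ≤ T ^ 3 * T ^ 3 := Nat.mul_le_mul_right _ h4
    _ = T ^ 6 := by ring

lemma Wt_le (T : ℕ) (w : ℕ → ℝ) (hw : w ∈ Wt T) (p : ℕ) : |w p| ≤ 1 := by
  classical
  unfold Wt at hw
  obtain ⟨z, _, rfl⟩ := mem_image.1 hw
  unfold wt
  split_ifs
  · exact Real.abs_cos_le_one _
  · exact Real.abs_sin_le_one _

lemma one_mem_Wt (T : ℕ) : (fun _ => (1 : ℝ)) ∈ Wt T := by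
  classical
  unfold Wt
  refine mem_image.2 ⟨(0, true), ?_, ?_⟩
  · rw [mem_product, mem_Icc]
    refine ⟨⟨?_, ?_⟩, mem_univ _⟩
    · show -((T : ℤ) ^ 3) ≤ 0
      have : (0 : ℤ) ≤ (T : ℤ) ^ 3 := by positivity
      linarith
    · show (0 : ℤ) ≤ (T : ℤ) ^ 3
      positivity
  · funext p
    simp [wt]

/-- the twisted sum -/
lemma twist (T : ℕ) (hT : 1 ≤ T) (g : ℕ → ℝ) (hg : ∀ p ∈ PR T, |g p| ≤ Real.sqrt p) (M : ℝ)
    (hM : ∀ w ∈ Wt T, |∑ p ∈ PR T, w p * g p| ≤ M) (τ : ℝ) (hτ : |τ| ≤ T) :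
    ‖∑ p ∈ PR T, (g p : ℂ) * ((Real.cos (τ * Real.log p) : ℂ) - (Real.sin (τ * Real.log p) : ℂ) * Complex.I)‖ ≤
      2 * (M + 2) := by
  classical
  have hT0 : (0 : ℝ) < T := by exact_mod_cast (by omega : 0 < T)
  have hT1 : (1 : ℝ) ≤ T := by exact_mod_cast hT
  obtain ⟨k, hk⟩ : ∃ k : ℤ, k = ⌊τ * T ^ 2⌋ := ⟨_, rfl⟩
  have hk1 : |τ - (k : ℝ) / T ^ 2| ≤ 1 / T ^ 2 := by
    have h1 := Int.floor_le (τ * (T : ℝ) ^ 2)
    have h2 := Int.lt_floor_add_one (τ * (T : ℝ) ^ 2)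
    rw [← hk] at h1 h2
    have e1 : τ - (k : ℝ) / T ^ 2 = (τ * T ^ 2 - k) / T ^ 2 := by field_simp
    rw [e1, abs_div, abs_of_pos (by positivity : (0 : ℝ) < T ^ 2)]
    apply div_le_div_of_nonneg_right _ (by positivity)
    rw [abs_le]
    constructor <;> linarith
  have hk2 : k ∈ Icc (-((T : ℤ) ^ 3)) ((T : ℤ) ^ 3) := by
    have h3 : |τ * (T : ℝ) ^ 2| ≤ (T : ℝ) ^ 3 := by
      rw [abs_mul, abs_of_pos (by positivity : (0 : ℝ) < T ^ 2)]
      calc |τ| * (T : ℝ) ^ 2 ≤ T * (T : ℝ) ^ 2 := mul_le_mul_of_nonneg_right hτ (by positivity)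
        _ = (T : ℝ) ^ 3 := by ring
    rw [abs_le] at h3
    rw [mem_Icc]
    constructor
    · rw [hk, Int.le_floor]
      push_cast
      exact h3.1
    · have h4 := Int.floor_le (τ * (T : ℝ) ^ 2)
      rw [← hk] at h4
      have h5 : (k : ℝ) ≤ (((T : ℤ) ^ 3 : ℤ) : ℝ) := by
        push_cast
        linarith [h3.2]
      exact_mod_cast h5
  have hcos : (fun p : ℕ => Real.cos ((k : ℝ) / T ^ 2 * Real.log p)) ∈ Wt T := by
    unfold Wt
    refine mem_image.2 ⟨(k, true), mem_product.2 ⟨hk2, mem_univ _⟩, ?_⟩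
    funext p
    simp [wt]
  have hsin : (fun p : ℕ => Real.sin ((k : ℝ) / T ^ 2 * Real.log p)) ∈ Wt T := by
    unfold Wt
    refine mem_image.2 ⟨(k, false), mem_product.2 ⟨hk2, mem_univ _⟩, ?_⟩
    funext p
    simp [wt]
  have hlogT : 0 ≤ Real.log T := Real.log_nonneg hT1
  have hlogT2 : Real.log T ≤ 2 * Real.sqrt T := by
    have h1 := Real.log_le_sub_one_of_pos (Real.sqrt_pos.2 hT0)
    rw [Real.log_sqrt hT0.le] at h1
    linarith
  -- the general estimate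
  have hgen : ∀ f : ℝ → ℝ, (∀ a b, |f a - f b| ≤ |a - b|) →
      (fun p : ℕ => f ((k : ℝ) / T ^ 2 * Real.log p)) ∈ Wt T →
      |∑ p ∈ PR T, g p * f (τ * Real.log p)| ≤ M + 2 := by
    intro f hf hmem
    have h1 := hM _ hmem
    have e1 : ∑ p ∈ PR T, g p * f (τ * Real.log p) =
        ∑ p ∈ PR T, f ((k : ℝ) / T ^ 2 * Real.log p) * g p +
        ∑ p ∈ PR T, g p * (f (τ * Real.log p) - f ((k : ℝ) / T ^ 2 * Real.log p)) := by
      rw [← sum_add_distrib]
      exact sum_congr rfl fun v _ => by ring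
    rw [e1]
    refine (abs_add_le _ _).trans (add_le_add h1 ?_)
    have h2 : ∀ p ∈ PR T, |g p * (f (τ * Real.log p) - f ((k : ℝ) / T ^ 2 * Real.log p))| ≤
        2 / T := by
      intro p hp
      have hpg := hg p hp
      rw [mem_PR] at hp
      have hq : (p : ℝ) ≤ T := by exact_mod_cast hp.1
      have hq1 : (1 : ℝ) ≤ p := by exact_mod_cast hp.2.one_lt.le
      have hl0 : 0 ≤ Real.log p := Real.log_nonneg hq1
      have hl1 : Real.log p ≤ Real.log T := Real.log_le_log (by linarith) hq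
      have h3 : |f (τ * Real.log p) - f ((k : ℝ) / T ^ 2 * Real.log p)| ≤ Real.log T / T ^ 2 := by
        refine (hf _ _).trans ?_
        rw [← sub_mul, abs_mul, abs_of_nonneg hl0]
        calc |τ - (k : ℝ) / T ^ 2| * Real.log p ≤ (1 / T ^ 2) * Real.log T := mul_le_mul hk1 hl1 hl0 (by positivity)
          _ = _ := by ring
      rw [abs_mul]
      have h5 := Real.sqrt_le_sqrt hq
      calc |g p| * |f (τ * Real.log p) - f ((k : ℝ) / T ^ 2 * Real.log p)| ≤ Real.sqrt T * (2 * Real.sqrt T / T ^ 2) := by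
            apply mul_le_mul (hpg.trans h5) _ (abs_nonneg _) (Real.sqrt_nonneg _)
            refine h3.trans ?_
            gcongr
        _ = 2 * (Real.sqrt T * Real.sqrt T) / T ^ 2 := by ring
        _ = 2 / T := by
            rw [Real.mul_self_sqrt hT0.le]
            field_simp
    refine (abs_sum_le_sum_abs _ _).trans ((sum_le_sum h2).trans ?_)
    rw [sum_const, nsmul_eq_mul]
    calc ((PR T).card : ℝ) * (2 / T) ≤ T * (2 / T) := mul_le_mul_of_nonneg_right (card_PR T) (by positivity)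
      _ = 2 := by field_simp
  have hc := hgen Real.cos (fun a b => Real.abs_cos_sub_cos_le a b) hcos
  have hs := hgen Real.sin (fun a b => Real.abs_sin_sub_sin_le a b) hsin
  have e2 : ∑ p ∈ PR T, (g p : ℂ) * ((Real.cos (τ * Real.log p) : ℂ) - (Real.sin (τ * Real.log p) : ℂ) * Complex.I) =
      ((∑ p ∈ PR T, g p * Real.cos (τ * Real.log p) : ℝ) : ℂ) -
      ((∑ p ∈ PR T, g p * Real.sin (τ * Real.log p) : ℝ) : ℂ) * Complex.I := by
    rw [Complex.ofReal_sum, Complex.ofReal_sum, sum_mul, ← sum_sub_distrib]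
    refine sum_congr rfl fun v _ => ?_
    push_cast
    ring
  rw [e2]
  refine (norm_sub_le _ _).trans ?_
  rw [norm_mul, Complex.norm_I, mul_one, Complex.norm_real, Complex.norm_real, Real.norm_eq_abs, Real.norm_eq_abs]
  linarith

section
variable {ι : Type} [Fintype ι] [DecidableEq ι] {A β : ℝ} {N B : ∀ p : ℕ, (ι → ZMod p) → ℝ}

open Classical in
/-- the truncated function -/
noncomputable def tn (N B : ∀ p : ℕ, (ι → ZMod p) → ℝ) (p : ℕ) (u : ι → ZMod p) : ℝ :=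
  if B p u ≤ 1 / 2 ∧ |p * N p u| ≤ Real.sqrt p then p * N p u else 0

/-- the two functions -/
noncomputable def fn (N B : ∀ p : ℕ, (ι → ZMod p) → ℝ) (θ : Bool) (p : ℕ) (u : ι → ZMod p) : ℝ :=
  if θ then tn N B p u else B p u

omit [Fintype ι] [DecidableEq ι] in
lemma tn_abs (p : ℕ) (u : ι → ZMod p) : |tn N B p u| ≤ Real.sqrt p := by
  unfold tn
  split_ifs with h
  · exact h.2
  · rw [abs_zero]
    exact Real.sqrt_nonneg _

lemma fn_abs (hF : Fam A N B) (θ : Bool) (p : ℕ) [hp : Fact p.Prime] (u : ι → ZMod p) : |fn N B θ p u| ≤ Real.sqrt p := by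
  unfold fn
  split_ifs
  · exact tn_abs p u
  · have h1 := hF.nonneg p u
    have h2 := hF.le_one p u
    rw [abs_of_nonneg h1]
    refine h2.trans ?_
    rw [Real.one_le_sqrt]
    exact_mod_cast hp.out.one_lt.le

lemma tn_near (hF : Fam A N B) (p : ℕ) [hp : Fact p.Prime] (u : ι → ZMod p) :
    |tn N B p u - p * N p u| ≤ (p : ℝ) ^ 2 / Real.sqrt p * N p u ^ 2 + 2 * Real.sqrt p * B p u := by
  have hp0 := p_pos (p := p)
  have hs : 0 < Real.sqrt p := Real.sqrt_pos.2 hp0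
  have hB := hF.nonneg p u
  unfold tn
  split_ifs with h
  · rw [sub_self, abs_zero]
    positivity
  · rw [zero_sub, abs_neg]
    rw [not_and_or, not_le, not_le] at h
    by_cases h1 : |p * N p u| ≤ Real.sqrt p
    · have h2 : 1 / 2 < B p u := by
        rcases h with h | h
        · exact h
        · exact absurd h1 (not_le.2 h)
      have h3 : 0 ≤ (p : ℝ) ^ 2 / Real.sqrt p * N p u ^ 2 := by positivity
      nlinarith
    · push Not at h1
      have h3 : 0 ≤ 2 * Real.sqrt p * B p u := by positivity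
      have h4 : |(p : ℝ) * N p u| ≤ (p : ℝ) ^ 2 / Real.sqrt p * N p u ^ 2 := by
        have h5 : (p : ℝ) ^ 2 / Real.sqrt p * N p u ^ 2 = |(p : ℝ) * N p u| * |(p : ℝ) * N p u| / Real.sqrt p := by
          rw [← abs_mul, show (p : ℝ) * N p u * (p * N p u) = (p : ℝ) ^ 2 * N p u ^ 2 by ring,
            abs_of_nonneg (by positivity)]
          ring
        rw [h5, le_div_iff₀ hs]
        exact mul_le_mul_of_nonneg_left h1.le (abs_nonneg _)
      linarith

lemma fn_sq (hF : Fam A N B) (θ : Bool) (p : ℕ) [hp : Fact p.Prime] : EM p (fun u => fn N B θ p u ^ 2) ≤ 4 * A := by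
  have hp0 := p_pos (p := p)
  have hp1 : (1 : ℝ) ≤ p := by exact_mod_cast hp.out.one_lt.le
  have hA := hF.A0
  cases θ
  · have h1 : EM p (fun u => fn N B false p u ^ 2) ≤ EM p (fun u => B p u) := by
      apply EM_mono
      intro u
      have h1 := hF.nonneg p u
      have h2 := hF.le_one p u
      show B p u ^ 2 ≤ B p u
      nlinarith
    refine h1.trans ((hF.bad p).trans ?_)
    rw [div_le_iff₀ hp0]
    nlinarith
  · have h1 : EM p (fun u => fn N B true p u ^ 2) ≤ EM p (fun u => (p : ℝ) ^ 2 * N p u ^ 2) := by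
      apply EM_mono
      intro u
      show tn N B p u ^ 2 ≤ _
      unfold tn
      split_ifs
      · exact le_of_eq (by ring)
      · rw [zero_pow two_ne_zero]
        positivity
    refine h1.trans ?_
    rw [EM_mul]
    calc (p : ℝ) ^ 2 * EM p (fun u => N p u ^ 2) ≤ (p : ℝ) ^ 2 * (A / (p : ℝ) ^ 2) :=
          mul_le_mul_of_nonneg_left (hF.sq p) (by positivity)
      _ = A := by field_simp
      _ ≤ 4 * A := by linarith

lemma EM_abs (p : ℕ) [NeZero p] (f g : (ι → ZMod p) → ℝ) (h : ∀ u, |f u| ≤ g u) : |EM p f| ≤ EM p g := by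
  rw [abs_le]
  constructor
  · have h1 : EM p (fun u => -g u) ≤ EM p f := EM_mono p _ _ fun u => (abs_le.1 (h u)).1
    have h2 : EM p (fun u => -g u) = - EM p g := by
      have := EM_mul p (-1) g
      rw [show (fun u => -g u) = fun u => (-1) * g u by funext u; ring, this]
      ring
    linarith
  · exact EM_mono p _ _ fun u => (abs_le.1 (h u)).2

lemma fn_mean (hF : Fam A N B) (θ : Bool) (p : ℕ) [hp : Fact p.Prime] :
    |EM p (fun u => fn N B θ p u)| ≤ 4 * A / Real.sqrt p := by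
  have hp0 := p_pos (p := p)
  have hp1 : (1 : ℝ) ≤ p := by exact_mod_cast hp.out.one_lt.le
  have hA := hF.A0
  have hs : 0 < Real.sqrt p := Real.sqrt_pos.2 hp0
  have hss : Real.sqrt p * Real.sqrt p = p := Real.mul_self_sqrt hp0.le
  have hs1 : 1 ≤ Real.sqrt p := Real.one_le_sqrt.2 hp1
  have hsp : Real.sqrt p ≤ p := by nlinarith
  have hAp : A / p ≤ A / Real.sqrt p := div_le_div_of_nonneg_left (by linarith) hs hsp
  cases θ
  · have h1 : |EM p (fun u => fn N B false p u)| ≤ EM p (fun u => B p u) := by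
      apply EM_abs
      intro u
      show |B p u| ≤ B p u
      rw [abs_of_nonneg (hF.nonneg p u)]
    refine h1.trans ((hF.bad p).trans ?_)
    rw [mul_div_assoc]
    have : 0 ≤ A / Real.sqrt p := by positivity
    linarith
  · have h1 : |EM p (fun u => tn N B p u - p * N p u)| ≤
        EM p (fun u => (p : ℝ) ^ 2 / Real.sqrt p * N p u ^ 2 + 2 * Real.sqrt p * B p u) :=
      EM_abs p _ _ fun u => tn_near hF p u
    rw [EM_add, EM_mul, EM_mul] at h1
    have h2 : (p : ℝ) ^ 2 / Real.sqrt p * EM p (fun u => N p u ^ 2) ≤ A / Real.sqrt p := by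
      calc (p : ℝ) ^ 2 / Real.sqrt p * EM p (fun u => N p u ^ 2) ≤ (p : ℝ) ^ 2 / Real.sqrt p * (A / (p : ℝ) ^ 2) :=
            mul_le_mul_of_nonneg_left (hF.sq p) (by positivity)
        _ = A / Real.sqrt p := by field_simp
    have h3 : 2 * Real.sqrt p * EM p (fun u => B p u) ≤ 2 * (A / Real.sqrt p) := by
      calc 2 * Real.sqrt p * EM p (fun u => B p u) ≤ 2 * Real.sqrt p * (A / p) :=
            mul_le_mul_of_nonneg_left (hF.bad p) (by positivity)
        _ = 2 * (Real.sqrt p * Real.sqrt p) * (A / p) / Real.sqrt p := by field_simp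
        _ = 2 * (A / Real.sqrt p) := by rw [hss]; field_simp
    have h4 : EM p (fun u => tn N B p u - p * N p u) = EM p (fun u => tn N B p u) - p * EM p (fun u => N p u) := by
      have e1 : (fun u => tn N B p u - p * N p u) = fun u : ι → ZMod p => tn N B p u + (-(p : ℝ)) * N p u := by
        funext u
        ring
      rw [e1, EM_add, EM_mul]
      ring
    have h5 : |(p : ℝ) * EM p (fun u => N p u)| ≤ A / Real.sqrt p := by
      rw [abs_mul, abs_of_pos hp0]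
      calc (p : ℝ) * |EM p (fun u => N p u)| ≤ p * (A / (p : ℝ) ^ 2) := mul_le_mul_of_nonneg_left (hF.mean p) hp0.le
        _ = A / p := by field_simp
        _ ≤ _ := hAp
    rw [h4] at h1
    show |EM p (fun u => tn N B p u)| ≤ _
    have h6 := abs_sub_abs_le_abs_sub (EM p (fun u => tn N B p u)) (p * EM p (fun u => N p u))
    rw [mul_div_assoc]
    linarith

/-- the local logarithm at a large prime -/
lemma lam_near (hβ : 0 ≤ β) {c : ι → ℤ} {lam : ℕ → ℂ → ℂ} (hF : Fam A N B) (h : Loc β N B c lam) (p : ℕ) (hp : p.Prime)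
    (hpβ : (6 * β) ^ 2 ≤ p) (u : ℂ) (hu : 0 ≤ u.re) :
    ‖lam p u - (p : ℂ) ^ (-u) * ((tn N B p (red p c) / p : ℝ) : ℂ)‖ ≤
      7 * β * (B p (red p c) / p) + β * (1 / (p : ℝ) ^ ((3 : ℝ) / 2)) := by
  have hp0 : (0 : ℝ) < p := by exact_mod_cast hp.pos
  have hp1 : (1 : ℝ) ≤ p := by exact_mod_cast hp.one_lt.le
  have hB0 := hF.nonneg p (red p c)
  have hB1 := hF.le_one p (red p c)
  have h32 : 1 / (p : ℝ) ^ ((3 : ℝ) / 2) ≤ 1 / p := by
    apply one_div_le_one_div_of_le hp0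
    calc (p : ℝ) = (p : ℝ) ^ (1 : ℝ) := (Real.rpow_one _).symm
      _ ≤ _ := Real.rpow_le_rpow_of_exponent_le hp1 (by norm_num)
  have h320 : 0 ≤ β * (1 / (p : ℝ) ^ ((3 : ℝ) / 2)) := by positivity
  by_cases hb : B p (red p c) ≤ 1 / 2
  · -- the size of `N`
    have h1 := h.near p hp 0 (by simp)
    have h2 := h.bound p hp 0 (by simp)
    simp only [neg_zero, Complex.cpow_zero, one_mul, Complex.zero_re, sub_zero] at h1 h2
    rw [Real.rpow_neg_one] at h2
    have h3 : |N p (red p c)| ≤ ‖lam p 0‖ + ‖lam p 0 - (N p (red p c) : ℂ)‖ := by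
      have e1 : |N p (red p c)| = ‖(N p (red p c) : ℂ)‖ := by rw [Complex.norm_real, Real.norm_eq_abs]
      rw [e1]
      have := norm_sub_le (lam p 0) (lam p 0 - (N p (red p c) : ℂ))
      rwa [sub_sub_cancel] at this
    unfold bb at h1
    have h4 : B p (red p c) * (|N p (red p c)| + β / p) ≤ 1 / 2 * (|N p (red p c)| + β / p) :=
      mul_le_mul_of_nonneg_right hb (by positivity)
    have h5 : β * (1 / (p : ℝ) ^ ((3 : ℝ) / 2)) ≤ β / p := by
      rw [div_eq_mul_one_div β (p : ℝ)]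
      exact mul_le_mul_of_nonneg_left h32 hβ
    have h6 : β * (p : ℝ)⁻¹ = β / p := by ring
    have h7 : |N p (red p c)| ≤ 6 * (β / p) := by
      have : 0 ≤ β / p := by positivity
      linarith
    have h8 : |(p : ℝ) * N p (red p c)| ≤ Real.sqrt p := by
      rw [abs_mul, abs_of_pos hp0]
      calc (p : ℝ) * |N p (red p c)| ≤ p * (6 * (β / p)) := mul_le_mul_of_nonneg_left h7 hp0.le
        _ = 6 * β := by field_simp
        _ ≤ Real.sqrt p := Real.le_sqrt_of_sq_le hpβ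
    have h9 : tn N B p (red p c) / p = N p (red p c) := by
      unfold tn
      rw [if_pos ⟨hb, h8⟩]
      field_simp
    rw [h9]
    refine (h.near p hp u hu).trans ?_
    unfold bb
    have h10 : B p (red p c) * (|N p (red p c)| + β / p) ≤ B p (red p c) * (7 * (β / p)) :=
      mul_le_mul_of_nonneg_left (by linarith) hB0
    have h11 : B p (red p c) * (7 * (β / p)) = 7 * β * (B p (red p c) / p) := by ring
    linarith
  · have h9 : tn N B p (red p c) = 0 := by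
      unfold tn
      rw [if_neg (fun h => hb h.1)]
    rw [h9, zero_div, Complex.ofReal_zero, mul_zero, sub_zero]
    push Not at hb
    have h1 := h.bound p hp u hu
    have h2 : (p : ℝ) ^ (-1 - u.re) ≤ 1 / p := by
      rw [one_div, ← Real.rpow_neg_one]
      exact Real.rpow_le_rpow_of_exponent_le hp1 (by linarith)
    have h3 : β * (p : ℝ) ^ (-1 - u.re) ≤ β * (1 / p) := mul_le_mul_of_nonneg_left h2 hβ
    have h4 : β * (1 / p) ≤ 7 * β * (B p (red p c) / p) := by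
      have : 7 * β * (B p (red p c) / p) = (β * (1 / p)) * (7 * B p (red p c)) := by ring
      rw [this]
      exact le_mul_of_one_le_right (by positivity) (by linarith)
    linarith

end

end Pool.Agent.Run7.h712.TS
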